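import Pool.Agent.Helper68.ES.St4

/-!
# Project ES, module LVB: numbers
-/

set_option autoImplicit false

open MeasureTheory Set Filter Topology
open scoped ENNReal RealInnerProductSpace

namespace Pool.Agent.Helper2.ES

open Pool.Agent.Helper68.ES Pool.Agent.Helper68.EP Pool.Agent.Helper20.RG
open Pool.Agent.Helper20.RL (RQ Rich BM Fml Hit)
open Pool.Agent.Helper68.LM (Pl BB Bd Av HL ft fm DQ)

private lemma dy_LVB {x y : ℝ} (hx : 0 < x) (hxy : x ≤ y) :
    ∃ n : ℕ, y / 2 ^ (n + 1) < x ∧ x ≤ y / 2 ^ n := by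
  obtain ⟨n, h1, h2⟩ := exists_nat_pow_near ((one_le_div hx).2 hxy) (one_lt_two (α := ℝ))
  refine ⟨n, ?_, ?_⟩
  · rw [div_lt_iff₀ (by positivity)]
    rw [div_lt_iff₀ hx] at h2
    linarith
  · rw [le_div_iff₀ (by positivity)]
    rw [le_div_iff₀ hx] at h1
    linarith

private lemma geo_LVB (M : ℕ) : ∑ v ∈ Finset.range M, (1 : ℝ) / 2 ^ v ≤ 2 := by
  have : ∀ M : ℕ, ∑ v ∈ Finset.range M, (1 : ℝ) / 2 ^ v = 2 - 2 / 2 ^ M := by
    intro M
    induction M with
    | zero => simp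
    | succ k ih =>
      rw [Finset.sum_range_succ, ih, pow_succ]
      field_simp
      ring
  rw [this]
  have : (0 : ℝ) < 2 / 2 ^ M := by positivity
  linarith

private lemma sq_LVB (M : ℕ) : ∑ v ∈ Finset.range M, (1 + (v : ℝ)) ^ 2 / 2 ^ v ≤ 12 := by
  have : ∀ M : ℕ, ∑ v ∈ Finset.range M, (1 + (v : ℝ)) ^ 2 / 2 ^ v =
      12 - (2 * (M : ℝ) ^ 2 + 8 * M + 12) / 2 ^ M := by
    intro M
    induction M with
    | zero => simp
    | succ k ih =>
      rw [Finset.sum_range_succ, ih, pow_succ]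
      push_cast
      field_simp
      ring
  rw [this]
  have : (0 : ℝ) < (2 * (M : ℝ) ^ 2 + 8 * M + 12) / 2 ^ M := by positivity
  linarith

private lemma two_LVB (k M : ℕ) {T B : ℝ} (hT : 0 ≤ T) (hB : 0 ≤ B) (x : ℕ → ℝ)
    (h1 : ∀ m, x m ≤ T) (h2 : ∀ m, x m ≤ B / 2 ^ m) :
    ∑ m ∈ Finset.range M, x m ≤ k * T + 2 * B / 2 ^ k := by
  set b : ℕ → ℝ := fun m => if m < k then T else B / 2 ^ m with hb
  have hb0 : ∀ m, 0 ≤ b m := by
    intro m
    simp only [hb]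
    split_ifs
    · exact hT
    · positivity
  have hxb : ∀ m, x m ≤ b m := by
    intro m
    simp only [hb]
    split_ifs
    · exact h1 m
    · exact h2 m
  calc ∑ m ∈ Finset.range M, x m ≤ ∑ m ∈ Finset.range M, b m := Finset.sum_le_sum fun m _ => hxb m
    _ ≤ ∑ m ∈ Finset.range (k + M), b m := by
        refine Finset.sum_le_sum_of_subset_of_nonneg ?_ fun m _ _ => hb0 m
        intro m hm
        rw [Finset.mem_range] at hm ⊢
        omega
    _ = ∑ m ∈ Finset.range k, b m + ∑ v ∈ Finset.range M, b (k + v) := Finset.sum_range_add _ _ _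
    _ ≤ k * T + 2 * B / 2 ^ k := by
        have e1 : ∑ m ∈ Finset.range k, b m = k * T := by
          rw [Finset.sum_congr rfl (g := fun _ => T)]
          · simp
          · intro m hm
            simp only [hb, if_pos (Finset.mem_range.1 hm)]
        have e2 : ∑ v ∈ Finset.range M, b (k + v) = B / 2 ^ k * ∑ v ∈ Finset.range M, (1 : ℝ) / 2 ^ v := by
          rw [Finset.mul_sum]
          refine Finset.sum_congr rfl fun v _ => ?_
          simp only [hb, if_neg (show ¬ k + v < k by omega), pow_add]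
          field_simp
        rw [e1, e2]
        have := geo_LVB M
        have h3 : B / 2 ^ k * ∑ v ∈ Finset.range M, (1 : ℝ) / 2 ^ v ≤ B / 2 ^ k * 2 := by gcongr
        have h4 : B / 2 ^ k * 2 = 2 * B / 2 ^ k := by ring
        linarith

theorem hLVB : Pool.Agent.Helper68.ES.StLVB := by
  refine ⟨200, by norm_num, ?_⟩
  intro W a f Φ ρ₀ K hΦ hρ₀ hρΦ hK hw hf hG
  classical
  set lam : ℝ := Real.logb 2 (Φ / ρ₀) with hlam
  set μ : ℝ := Real.logb 2 Φ with hμ
  have hlam0 : 0 ≤ lam := Real.logb_nonneg (by norm_num) ((one_le_div hρ₀).2 hρΦ)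
  have hμ0 : 0 ≤ μ := Real.logb_nonneg (by norm_num) hΦ
  set Λ : ℝ := 1 + lam + μ with hΛ
  have hΛ1 : 1 ≤ Λ := by linarith
  have hΦ0 : 0 < Φ := by linarith
  have hK0 : 0 < K := by linarith
  set ρ : ℕ → ℝ := fun n => min ρ₀ (Φ / 2 ^ n) with hρ
  have hρpos : ∀ n, 0 < ρ n := fun n => lt_min hρ₀ (by positivity)
  -- the groups
  set W' : Finset ℕ := W.filter (fun w => 0 < a w) with hW'
  have hsum : ∑ w ∈ W, a w = ∑ w ∈ W', a w := by
    rw [hW', Finset.sum_filter]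
    refine Finset.sum_congr rfl fun w h => ?_
    split_ifs with h0
    · rfl
    · exact le_antisymm (not_lt.1 h0) (hw w h).1
  have hW'm : ∀ w ∈ W', w ∈ W ∧ 0 < a w := by
    intro w h
    rw [hW', Finset.mem_filter] at h
    exact h
  have hfpos : ∀ w ∈ W', 0 < f w := by
    intro w h
    obtain ⟨h1, h2⟩ := hW'm w h
    have h3 := (hw w h1).2.2.1
    by_contra h4
    have h5 : f w = 0 := le_antisymm (not_lt.1 h4) (hw w h1).2.2.2.1
    rw [h5, mul_zero] at h3
    linarith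
  have hn : ∀ w, ∃ n : ℕ, w ∈ W' → 1 / 2 ^ (n + 1) < f w ∧ f w ≤ 1 / 2 ^ n := by
    intro w
    by_cases h : w ∈ W'
    · obtain ⟨n, h1, h2⟩ := dy_LVB (hfpos w h) (hw w (hW'm w h).1).2.2.2.2
      exact ⟨n, fun _ => ⟨h1, h2⟩⟩
    · exact ⟨0, fun h' => absurd h' h⟩
  choose n hn using hn
  have haρ : ∀ w ∈ W', a w ≤ ρ (n w) := by
    intro w h
    obtain ⟨h1, h2⟩ := hW'm w h
    refine le_min (hw w h1).2.1 ?_
    refine (hw w h1).2.2.1.trans ?_
    have := (hn w h).2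
    calc Φ * f w ≤ Φ * (1 / 2 ^ n w) := by gcongr
      _ = Φ / 2 ^ n w := by ring
  have hm : ∀ w, ∃ m : ℕ, w ∈ W' → ρ (n w) / 2 ^ (m + 1) < a w ∧ a w ≤ ρ (n w) / 2 ^ m := by
    intro w
    by_cases h : w ∈ W'
    · obtain ⟨m, h1, h2⟩ := dy_LVB (hW'm w h).2 (haρ w h)
      exact ⟨m, fun _ => ⟨h1, h2⟩⟩
    · exact ⟨0, fun h' => absurd h' h⟩
  choose m hm using hm
  set N : ℕ := W'.sup n + 1 with hN
  set M : ℕ := W'.sup m + 1 with hM
  have hmaps : ∀ w ∈ W', (n w, m w) ∈ Finset.range N ×ˢ Finset.range M := by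
    intro w h
    rw [Finset.mem_product, Finset.mem_range, Finset.mem_range]
    exact ⟨Nat.lt_succ_of_le (Finset.le_sup h), Nat.lt_succ_of_le (Finset.le_sup h)⟩
  set x : ℕ → ℕ → ℝ := fun i j => ∑ w ∈ W' with (n w, m w) = (i, j), a w with hx
  have hdec : ∑ w ∈ W', a w = ∑ i ∈ Finset.range N, ∑ j ∈ Finset.range M, x i j := by
    rw [← Finset.sum_fiberwise_of_maps_to hmaps, Finset.sum_product]
  -- the two bounds
  have hx1 : ∀ i j, x i j ≤ K * ρ i * (1 + Real.logb 2 (Φ / ρ i)) := by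
    intro i j
    have hi : Φ / 2 ^ i ≤ Φ := div_le_self hΦ0.le (one_le_pow₀ (by norm_num))
    refine le_trans ?_ (hG (Φ / 2 ^ i) (ρ i / 2 ^ (j + 1)) (by positivity) hi (by
      have := hρpos i
      positivity))
    refine Finset.sum_le_sum_of_subset_of_nonneg ?_ fun w h _ => (hw w (Finset.mem_filter.1 h).1).1
    intro w h
    rw [Finset.mem_filter, Prod.mk.injEq] at h
    obtain ⟨h1, rfl, rfl⟩ := h
    rw [Finset.mem_filter]
    refine ⟨(hW'm w h1).1, ?_, (hm w h1).1.le, ?_⟩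
    · have := (hn w h1).2
      calc Φ * f w ≤ Φ * (1 / 2 ^ n w) := by gcongr
        _ = Φ / 2 ^ n w := by ring
    · refine (hm w h1).2.trans (le_of_eq ?_)
      rw [pow_succ]
      field_simp
  have hx2 : ∀ i j, x i j ≤ (2 ^ (i + 1) * Φ * ρ i) / 2 ^ j := by
    intro i j
    have hρi := hρpos i
    calc x i j ≤ ∑ w ∈ W' with (n w, m w) = (i, j), (ρ i / 2 ^ j * 2 ^ (i + 1)) * f w := by
          refine Finset.sum_le_sum fun w h => ?_
          rw [Finset.mem_filter, Prod.mk.injEq] at h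
          obtain ⟨h1, rfl, rfl⟩ := h
          refine (hm w h1).2.trans ?_
          have h2 := (hn w h1).1
          rw [div_lt_iff₀ (by positivity)] at h2
          have h3 : ρ (n w) / 2 ^ m w * 1 ≤ ρ (n w) / 2 ^ m w * (f w * 2 ^ (n w + 1)) := by gcongr
          linarith
      _ ≤ ∑ w ∈ W, (ρ i / 2 ^ j * 2 ^ (i + 1)) * f w := by
          refine Finset.sum_le_sum_of_subset_of_nonneg ?_ ?_
          · intro w h
            exact (hW'm w (Finset.mem_filter.1 h).1).1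
          · intro w h _
            have := (hw w h).2.2.2.1
            positivity
      _ = (ρ i / 2 ^ j * 2 ^ (i + 1)) * ∑ w ∈ W, f w := by rw [Finset.mul_sum]
      _ ≤ (ρ i / 2 ^ j * 2 ^ (i + 1)) * Φ := by gcongr
      _ = (2 ^ (i + 1) * Φ * ρ i) / 2 ^ j := by ring
  -- logarithms
  have hlogρ : ∀ i : ℕ, Real.logb 2 (Φ / ρ i) ≤ max lam i := by
    intro i
    have hρi := hρpos i
    rcases le_total ρ₀ (Φ / 2 ^ i) with h | h
    · have : ρ i = ρ₀ := min_eq_left h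
      rw [this]
      exact le_max_left _ _
    · have : ρ i = Φ / 2 ^ i := min_eq_right h
      rw [this]
      have : Φ / (Φ / 2 ^ i) = (2 : ℝ) ^ (i : ℝ) := by
        rw [Real.rpow_natCast]
        field_simp
      rw [this, Real.logb_rpow (by norm_num) (by norm_num)]
      exact le_max_right _ _
  have hlog0 : ∀ i : ℕ, 0 ≤ Real.logb 2 (Φ / ρ i) := by
    intro i
    apply Real.logb_nonneg (by norm_num)
    rw [one_le_div (hρpos i)]
    exact (min_le_left _ _).trans hρΦ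
  -- sum over j
  have hsumj : ∀ i, ∑ j ∈ Finset.range M, x i j ≤ K * ρ i * ((1 + max lam i) * (i + 4 + μ)) := by
    intro i
    have hρi := hρpos i
    set k : ℕ := i + 2 + ⌈μ⌉₊ with hk
    have hT0 : 0 ≤ K * ρ i * (1 + Real.logb 2 (Φ / ρ i)) := by
      have := hlog0 i
      positivity
    have h1 := two_LVB k M hT0 (by positivity : (0 : ℝ) ≤ 2 ^ (i + 1) * Φ * ρ i) (x i) (hx1 i) (hx2 i)
    have h2 : 2 * (2 ^ (i + 1) * Φ * ρ i) / 2 ^ k ≤ ρ i := by
      have hΦ2 : Φ ≤ 2 ^ ⌈μ⌉₊ := by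
        have h3 : μ ≤ (⌈μ⌉₊ : ℝ) := Nat.le_ceil _
        rw [hμ, Real.logb_le_iff_le_rpow (by norm_num) hΦ0, Real.rpow_natCast] at h3
        exact h3
      have hk2 : (2 : ℝ) ^ k = 2 ^ i * 4 * 2 ^ ⌈μ⌉₊ := by
        rw [hk, pow_add, pow_add]
        norm_num
      rw [div_le_iff₀ (by positivity), hk2, pow_succ]
      have h4 : (2 : ℝ) * (2 ^ i * 2 * Φ * ρ i) = ρ i * (2 ^ i * 4 * Φ) := by ring
      rw [h4]
      gcongr
    have hkμ : (k : ℝ) ≤ i + 3 + μ := by
      have h3 := Nat.ceil_lt_add_one hμ0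
      rw [hk]
      push_cast
      linarith
    have hmx : 0 ≤ max lam (i : ℝ) := hlam0.trans (le_max_left _ _)
    calc ∑ j ∈ Finset.range M, x i j
        ≤ k * (K * ρ i * (1 + Real.logb 2 (Φ / ρ i))) + 2 * (2 ^ (i + 1) * Φ * ρ i) / 2 ^ k := h1
      _ ≤ k * (K * ρ i * (1 + max lam i)) + K * ρ i * (1 + max lam i) := by
          have h4 : k * (K * ρ i * (1 + Real.logb 2 (Φ / ρ i))) ≤ k * (K * ρ i * (1 + max lam i)) := by
            have := hlogρ i
            gcongr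
          have h5 : ρ i ≤ K * ρ i * (1 + max lam i) := by
            have h6 : ρ i ≤ K * ρ i := le_mul_of_one_le_left hρi.le hK
            exact h6.trans (le_mul_of_one_le_right (by positivity) (by linarith))
          linarith
      _ = K * ρ i * ((1 + max lam i) * (k + 1)) := by ring
      _ ≤ K * ρ i * ((1 + max lam i) * (i + 4 + μ)) := by
          have h6 : (k : ℝ) + 1 ≤ i + 4 + μ := by linarith
          have h7 : (0 : ℝ) ≤ 1 + max lam (i : ℝ) := by linarith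
          exact mul_le_mul_of_nonneg_left (mul_le_mul_of_nonneg_left h6 h7) (by positivity)
  -- sum over i
  set L : ℕ := ⌊lam⌋₊ + 1 with hL
  have hLlam : lam ≤ L := by
    have := Nat.lt_floor_add_one lam
    rw [hL]
    push_cast
    exact this.le
  have hLlam2 : (L : ℝ) ≤ lam + 1 := by
    have := Nat.floor_le hlam0
    rw [hL]
    push_cast
    linarith
  set y : ℕ → ℝ := fun i => ρ i * ((1 + max lam i) * (i + 4 + μ)) with hy
  have hy0 : ∀ i, 0 ≤ y i := by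
    intro i
    have h1 := hρpos i
    have hmx : 0 ≤ max lam (i : ℝ) := hlam0.trans (le_max_left _ _)
    positivity
  have hyA : ∀ i ∈ Finset.range L, y i ≤ 4 * ρ₀ * Λ ^ 2 := by
    intro i hi
    rw [Finset.mem_range, hL, Nat.lt_succ_iff] at hi
    have hil : (i : ℝ) ≤ lam := by
      have h1 : (i : ℝ) ≤ ⌊lam⌋₊ := by exact_mod_cast hi
      exact h1.trans (Nat.floor_le hlam0)
    have hmax : max lam (i : ℝ) = lam := max_eq_left hil
    simp only [hy]
    rw [hmax]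
    calc ρ i * ((1 + lam) * (i + 4 + μ)) ≤ ρ₀ * (Λ * (4 * Λ)) := by
          have h2 : (i : ℝ) + 4 + μ ≤ 4 * Λ := by linarith
          have h3 : 1 + lam ≤ Λ := by linarith
          have h4 : ρ i ≤ ρ₀ := min_le_left _ _
          have h5 : (0 : ℝ) ≤ i + 4 + μ := by positivity
          gcongr
      _ = 4 * ρ₀ * Λ ^ 2 := by ring
  have hyB : ∀ v : ℕ, y (L + v) ≤ 10 * ρ₀ * Λ ^ 2 * ((1 + (v : ℝ)) ^ 2 / 2 ^ v) := by
    intro v
    have hv0 : (0 : ℝ) ≤ v := Nat.cast_nonneg v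
    have hcast : ((L + v : ℕ) : ℝ) = L + v := by push_cast; ring
    have hmax : max lam ((L + v : ℕ) : ℝ) = L + v := by
      rw [hcast]
      exact max_eq_right (by linarith)
    have hρv : ρ (L + v) ≤ ρ₀ / 2 ^ v := by
      refine (min_le_right _ _).trans ?_
      have h1 : Φ ≤ ρ₀ * 2 ^ L := by
        have h2 : lam ≤ (L : ℝ) := hLlam
        rw [hlam, Real.logb_le_iff_le_rpow (by norm_num) (by positivity), Real.rpow_natCast,
          div_le_iff₀ hρ₀] at h2
        linarith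
      rw [div_le_div_iff₀ (by positivity) (by positivity), pow_add]
      calc Φ * 2 ^ v ≤ (ρ₀ * 2 ^ L) * 2 ^ v := by gcongr
        _ = ρ₀ * (2 ^ L * 2 ^ v) := by ring
    simp only [hy]
    rw [hmax, hcast]
    have hvΛ : (v : ℝ) ≤ Λ * v := le_mul_of_one_le_left hv0 hΛ1
    have h3 : 1 + ((L : ℝ) + v) ≤ 2 * Λ * (1 + v) := by nlinarith
    have h4 : (L : ℝ) + v + 4 + μ ≤ 5 * Λ * (1 + v) := by nlinarith
    calc ρ (L + v) * ((1 + ((L : ℝ) + v)) * ((L : ℝ) + v + 4 + μ))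
        ≤ (ρ₀ / 2 ^ v) * ((2 * Λ * (1 + v)) * (5 * Λ * (1 + v))) := by
          have h5 := (hρpos (L + v)).le
          gcongr
      _ = 10 * ρ₀ * Λ ^ 2 * ((1 + (v : ℝ)) ^ 2 / 2 ^ v) := by ring
  have hysum : ∑ i ∈ Finset.range N, y i ≤ 124 * ρ₀ * Λ ^ 3 := by
    calc ∑ i ∈ Finset.range N, y i ≤ ∑ i ∈ Finset.range (L + N), y i := by
          refine Finset.sum_le_sum_of_subset_of_nonneg ?_ fun i _ _ => hy0 i
          intro i hi
          rw [Finset.mem_range] at hi ⊢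
          omega
      _ = ∑ i ∈ Finset.range L, y i + ∑ v ∈ Finset.range N, y (L + v) := Finset.sum_range_add _ _ _
      _ ≤ ∑ i ∈ Finset.range L, 4 * ρ₀ * Λ ^ 2 +
          ∑ v ∈ Finset.range N, 10 * ρ₀ * Λ ^ 2 * ((1 + (v : ℝ)) ^ 2 / 2 ^ v) :=
          add_le_add (Finset.sum_le_sum hyA) (Finset.sum_le_sum fun v _ => hyB v)
      _ = L * (4 * ρ₀ * Λ ^ 2) +
          10 * ρ₀ * Λ ^ 2 * ∑ v ∈ Finset.range N, ((1 + (v : ℝ)) ^ 2 / 2 ^ v) := by
          rw [Finset.sum_const, Finset.card_range, nsmul_eq_mul, Finset.mul_sum]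
      _ ≤ Λ * (4 * ρ₀ * Λ ^ 2) + 10 * ρ₀ * Λ ^ 2 * 12 := by
          have h1 := sq_LVB N
          have h2 : (L : ℝ) ≤ Λ := by linarith
          gcongr
      _ ≤ 124 * ρ₀ * Λ ^ 3 := by
          have h3 : 10 * ρ₀ * Λ ^ 2 * 12 ≤ 120 * ρ₀ * Λ ^ 2 * Λ := by
            have : 120 * ρ₀ * Λ ^ 2 * 1 ≤ 120 * ρ₀ * Λ ^ 2 * Λ := by gcongr
            linarith
          have h4 : Λ * (4 * ρ₀ * Λ ^ 2) + 120 * ρ₀ * Λ ^ 2 * Λ = 124 * ρ₀ * Λ ^ 3 := by ring
          linarith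
  rw [hsum, hdec]
  calc ∑ i ∈ Finset.range N, ∑ j ∈ Finset.range M, x i j
      ≤ ∑ i ∈ Finset.range N, K * y i := by
        refine Finset.sum_le_sum fun i _ => (hsumj i).trans (le_of_eq ?_)
        simp only [hy]
        ring
    _ = K * ∑ i ∈ Finset.range N, y i := by rw [Finset.mul_sum]
    _ ≤ K * (124 * ρ₀ * Λ ^ 3) := by gcongr
    _ ≤ 200 * K * ρ₀ * Λ ^ 3 := by
        have : 0 ≤ K * ρ₀ * Λ ^ 3 := by positivity
        nlinarith

end Pool.Agent.Helper2.ES
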