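import Pool.Agent.Helper68.ES.St4

/-!
# Project ES, module MAI: one set, all classes of a type
-/

set_option autoImplicit false

open MeasureTheory Set Filter Topology
open scoped ENNReal RealInnerProductSpace

namespace Pool.Agent.Helper2.ES

open Pool.Agent.Helper68.ES Pool.Agent.Helper68.EP Pool.Agent.Helper20.RG
open Pool.Agent.Helper20.RL (RQ Rich BM Fml Hit)
open Pool.Agent.Helper68.LM (Pl BB Bd Av HL ft fm DQ)

private lemma mbth_MAI (i : ℕ) (β : ℤ) : mb i β * th i = (2 : ℝ) ^ β / 36 := by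
  unfold mb th
  rw [mul_div_assoc', ← zpow_add₀ (by norm_num)]
  congr 2
  ring

private lemma th_pos_MAI (i : ℕ) : 0 < th i := by unfold th; positivity

private lemma mb_pos_MAI (i : ℕ) (β : ℤ) : 0 < mb i β := by unfold mb; positivity

private lemma pw_MAI {c : ℝ} (hc : 0 < c) : ∃ K : ℝ, 1 ≤ K ∧ ∀ T : ℝ, 0 ≤ T →
    (1 + T) ^ 3 * (2 : ℝ) ^ (-(c * T)) ≤ K * (2 : ℝ) ^ (-(c / 2 * T)) := by
  set a : ℝ := c * Real.log 2 / 6 with ha
  have hl : 0 < Real.log 2 := Real.log_pos (by norm_num)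
  have ha0 : 0 < a := by positivity
  set B : ℝ := max 1 (1 / a) with hB
  have hB1 : 1 ≤ B := le_max_left _ _
  have hB2 : 1 / a ≤ B := le_max_right _ _
  refine ⟨B ^ 3, one_le_pow₀ hB1, ?_⟩
  intro T hT
  have h1 : 1 + T ≤ B * Real.exp (a * T) := by
    have h2 : 1 + T ≤ B * (1 + a * T) := by
      have h3 : 1 ≤ B * a := by rw [div_le_iff₀ ha0] at hB2; exact hB2
      have h4 : T ≤ B * a * T := le_mul_of_one_le_left hT h3
      nlinarith
    refine h2.trans ?_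
    have := Real.add_one_le_exp (a * T)
    gcongr
    linarith
  have h5 : (1 + T) ^ 3 ≤ B ^ 3 * (2 : ℝ) ^ (c / 2 * T) := by
    calc (1 + T) ^ 3 ≤ (B * Real.exp (a * T)) ^ 3 := by gcongr
      _ = B ^ 3 * Real.exp (a * T) ^ 3 := by ring
      _ = B ^ 3 * (2 : ℝ) ^ (c / 2 * T) := by
          rw [← Real.exp_nat_mul, Real.rpow_def_of_pos (by norm_num)]
          congr 2
          rw [ha]
          push_cast
          ring
  calc (1 + T) ^ 3 * (2 : ℝ) ^ (-(c * T)) ≤ (B ^ 3 * (2 : ℝ) ^ (c / 2 * T)) * (2 : ℝ) ^ (-(c * T)) := by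
        gcongr
    _ = B ^ 3 * (2 : ℝ) ^ (-(c / 2 * T)) := by
        rw [mul_assoc, ← Real.rpow_add (by norm_num)]
        congr 2
        ring

theorem hMAI (hCHX : StCHX) (hTRU : StTRU) (hSUP : StSUP) (hPAI : StPAI) (hLVL : StLVL) :
    Pool.Agent.Helper68.ES.StMAI := by
  intro p hp1 hp2 hp3
  obtain ⟨δ₀, c₂, e₁, hδ₀, hc₂0, hc₂1, he₁, hT⟩ := hTRU p hp1 hp2 hp3
  set e : ℝ := min e₁ ((p - 1) / 2) with hedef
  have he0 : 0 < e := lt_min he₁ (by linarith)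
  have hee₁ : e ≤ e₁ := min_le_left _ _
  have hep : e ≤ (p - 1) / 2 := min_le_right _ _
  refine ⟨δ₀, c₂ / 2, e, hδ₀, by positivity, he0, ?_⟩
  intro A Cf C₁ c δ hA hCf hC₁ hc0 hc1 hδ0 hδ1
  obtain ⟨CH, hCH, hX⟩ := hCHX Cf hCf
  obtain ⟨u₁, C₀, hC₀, hTR⟩ := hT A CH C₁ c δ hA hCH hC₁ hc0 hc1 hδ0 hδ1
  obtain ⟨CP, η, hCP, hη0, hη1, hP⟩ := hPAI p hp1 hp2 hp3 A CH hA hCH
  obtain ⟨CL, hCL, hL⟩ := hLVL η hη0 hη1
  obtain ⟨K, hK1, hK⟩ := pw_MAI hc₂0
  set C' : ℝ := 1260 + C₁ + 2 * CP * C₀ ^ 2 with hC'def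
  have hPC : 1 ≤ CP * C₀ ^ 2 := by nlinarith
  have hC0sq : C₀ ≤ C₀ ^ 2 := by nlinarith
  have hPC2 : C₀ ≤ CP * C₀ ^ 2 := hC0sq.trans (le_mul_of_one_le_left (by positivity) hCP)
  have hPC3 : CP ≤ CP * C₀ ^ 2 := le_mul_of_one_le_right (by linarith) (one_le_pow₀ hC₀)
  have hC'1 : 1260 ≤ C' := by rw [hC'def]; linarith
  have hC'2 : C₁ ≤ C' := by rw [hC'def]; linarith
  have hC'3 : C₀ ≤ C' := by rw [hC'def]; linarith
  have hC'4 : 2 * CP * C₀ ^ 2 ≤ C' := by rw [hC'def]; linarith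
  have hC'5 : 2 + CP ≤ C' := by rw [hC'def]; linarith
  have hC'0 : 0 < C' := by linarith
  set lC : ℝ := Real.logb 2 C' with hlC
  have hlC0 : 0 ≤ lC := Real.logb_nonneg (by norm_num) (by linarith)
  set C'' : ℝ := 2 + 2 * lC + 2 * C' with hC''
  have hC''0 : 1 ≤ C'' := by rw [hC'']; linarith
  set Cfin : ℝ := 3 * (CL * C₀ * C'' ^ 3 * K) with hCfin
  have hcf1 : 1 ≤ CL * C₀ * C'' ^ 3 * K := by
    have h1 : 1 ≤ CL * C₀ := one_le_mul_of_one_le_of_one_le hCL hC₀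
    have h2 : 1 ≤ CL * C₀ * C'' ^ 3 := one_le_mul_of_one_le_of_one_le h1 (one_le_pow₀ hC''0)
    exact one_le_mul_of_one_le_of_one_le h2 hK1
  refine ⟨max u₁ ⌈4 / (p - 1)⌉₊, Cfin, by rw [hCfin]; linarith, ?_⟩
  intro R Y β W q i J sl fl cc D al E hE hal0 hal1 hRY hW hsumJ
  set T : ℝ := sz R Y β with hTdef
  have hRT : |(R : ℝ)| + |(Y : ℝ)| + |(β : ℝ)| = T := rfl
  have hRn := abs_nonneg (R : ℝ)
  have hYn := abs_nonneg (Y : ℝ)
  have hβn := abs_nonneg (β : ℝ)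
  have hRa := abs_le.1 (le_refl |(R : ℝ)|)
  have hβa := abs_le.1 (le_refl |(β : ℝ)|)
  have hT0 : 0 ≤ T := by linarith
  set n' : ℝ := nn c δ R Y β with hn'
  have hn1 : 1 ≤ n' := le_max_left _ _
  have h2T : (1 : ℝ) ≤ (2 : ℝ) ^ T := Real.one_le_rpow (by norm_num) hT0
  have hn2 : n' ≤ (2 : ℝ) ^ T := by
    refine max_le h2T ?_
    calc c * (2 : ℝ) ^ (-(β : ℝ) - δ * sz R Y β) ≤ 1 * (2 : ℝ) ^ T := by
          gcongr
          · norm_num
          · have : 0 ≤ δ * sz R Y β := mul_nonneg hδ0.le hT0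
            linarith
      _ = (2 : ℝ) ^ T := one_mul _
  set ρ₀ : ℝ := C₀ * n' * (2 : ℝ) ^ (-(c₂ * T)) with hρ₀
  have hρ₀0 : 0 < ρ₀ := by positivity
  have h2c : (2 : ℝ) ^ (-(c₂ * T)) ≤ 1 := by
    apply Real.rpow_le_one_of_one_le_of_nonpos (by norm_num)
    have : 0 ≤ c₂ * T := by positivity
    linarith
  have hρ₀T : ρ₀ ≤ C₀ * (2 : ℝ) ^ T := by
    calc ρ₀ ≤ C₀ * (2 : ℝ) ^ T * 1 := by rw [hρ₀]; gcongr
      _ = C₀ * (2 : ℝ) ^ T := mul_one _
  set ρ : ℝ := max 1 ρ₀ with hρdef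
  have hρ1 : 1 ≤ ρ := le_max_left _ _
  have hρρ : ρ₀ ≤ ρ := le_max_right _ _
  have hρT : ρ ≤ C₀ * (2 : ℝ) ^ T :=
    max_le (one_le_mul_of_one_le_of_one_le hC₀ h2T) hρ₀T
  set Φ : ℝ := C' * (2 : ℝ) ^ (C' * T) with hΦdef
  have h2C : ∀ a : ℝ, a ≤ C' → (2 : ℝ) ^ (a * T) ≤ (2 : ℝ) ^ (C' * T) := by
    intro a ha
    apply Real.rpow_le_rpow_of_exponent_le (by norm_num)
    exact mul_le_mul_of_nonneg_right ha hT0
  have h2T' : (2 : ℝ) ^ T ≤ (2 : ℝ) ^ (C' * T) := by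
    have := h2C 1 (by linarith)
    rwa [one_mul] at this
  have hΦ1 : 1 ≤ Φ := one_le_mul_of_one_le_of_one_le (by linarith) (h2T.trans h2T')
  have hρΦ : ρ₀ ≤ Φ := by
    refine hρ₀T.trans ?_
    rw [hΦdef]
    gcongr
  -- facts for each class
  have hwf : ∀ w ∈ W, u₁ ≤ w ∧ 1 ≤ q w ∧ (q w : ℝ) ≤ (p - 1) * w + R ∧
      Cfg p e₁ R Y β w (q w) (i w) := by
    intro w hw
    obtain ⟨h1, h2, -⟩ := hW w hw
    have h3 : u₁ ≤ w := (le_max_left _ _).trans h1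
    have h4 : (4 / (p - 1) : ℝ) ≤ w := by
      have h5 : ⌈4 / (p - 1)⌉₊ ≤ w := (le_max_right _ _).trans h1
      exact (Nat.le_ceil _).trans (by exact_mod_cast h5)
    have h6 : 4 ≤ (p - 1) * w := by
      rw [div_le_iff₀ (by linarith)] at h4
      linarith
    have h7 : (q w : ℝ) = (⌊(p - 1) * w⌋ : ℝ) + R := by exact_mod_cast h2.hq
    have h8 := Int.floor_le ((p - 1) * (w : ℝ))
    have h9 := Int.lt_floor_add_one ((p - 1) * (w : ℝ))
    have hw0 : (0 : ℝ) ≤ w := Nat.cast_nonneg w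
    have hadm : T ≤ e * w := h2.adm
    have h10 : T ≤ (p - 1) / 2 * w := hadm.trans (mul_le_mul_of_nonneg_right hep hw0)
    refine ⟨h3, ?_, by linarith, ⟨h2.hq, h2.hi, hadm.trans (mul_le_mul_of_nonneg_right hee₁ hw0)⟩⟩
    have : (1 : ℝ) ≤ q w := by linarith
    exact_mod_cast this
  have hω : ∀ w, ∃ ω : ℤ → ℕ → Pl → ℝ≥0∞, w ∈ W →
      Chg CH E w (q w) (J w) (sl w) (fl w) (D w) (th (i w)) (mb (i w) β) ω ∧
      ENNReal.ofReal (3 / 4 * (2 : ℝ) ^ (-(p * w))) *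
        volume (⋃ k : ℤ, Xk E w (q w) (J w) (sl w) (fl w) (cc w) (D w) (th (i w)) (mb (i w) β) k) ≤
        ∫⁻ z, cg p w (J w) ω z := by
    intro w
    by_cases hw : w ∈ W
    · obtain ⟨-, -, h3, h4, h5⟩ := hW w hw
      obtain ⟨ω, hω⟩ := hX p E w (q w) (J w) (sl w) (fl w) (cc w) (D w) (th (i w)) (mb (i w) β) hE
        (fun j hj => ⟨h3.slope j hj, (h5 j hj).1, (h5 j hj).2⟩) h4 (th_pos_MAI _) (mb_pos_MAI _ _)
      exact ⟨ω, fun _ => hω⟩
    · exact ⟨fun _ _ _ => 0, fun h => absurd h hw⟩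
  choose ω hω using hω
  set cw : ℕ → Pl → ℝ≥0∞ := fun w => cg p w (J w) (ω w) with hcw
  set f : ℕ → ℝ := fun w => ((J w).card : ℝ) * (2 : ℝ) ^ (-(w : ℤ)) with hf
  have hS : ∀ w ∈ W, (∀ z : Pl, cw w z ≤ ENNReal.ofReal ((2 : ℝ) ^ (-(p * w)) *
        (2 ^ q w * (J w).card * (35 / (mb (i w) β * th (i w)))))) ∧
      (∀ z : Pl, cw w z ≠ 0 → z ∈ E ∧ ∃ b : ℤ, z ∉ Fb E (D w) b) ∧
      Measurable (cw w) ∧ ∫⁻ z, cw w z ≠ ∞ := by
    intro w hw
    exact hSUP p CH E w (q w) (J w) (sl w) (fl w) (D w) (th (i w)) (mb (i w) β) (ω w) (hω w hw).1 hE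
      (hwf w hw).2.1 (hW w hw).2.2.2.1 (th_pos_MAI _) (mb_pos_MAI _ _)
  have hf01 : ∀ w ∈ W, 0 ≤ f w ∧ f w ≤ 1 := by
    intro w hw
    refine ⟨by simp only [hf]; positivity, ?_⟩
    have h1 := (hW w hw).2.2.1.card
    simp only [hf]
    rw [zpow_neg, zpow_natCast, ← div_eq_mul_inv, div_le_one (by positivity)]
    exact h1
  have hcf : ∀ w ∈ W, ∀ z, cw w z ≤ ENNReal.ofReal (Φ * f w) := by
    intro w hw z
    refine ((hS w hw).1 z).trans (ENNReal.ofReal_le_ofReal ?_)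
    have hq := (hwf w hw).2.2.1
    have hcard : ((J w).card : ℝ) = f w * 2 ^ w := by
      simp only [hf]
      rw [zpow_neg, zpow_natCast]
      field_simp
    have h2q : (2 : ℝ) ^ q w ≤ (2 : ℝ) ^ ((p - 1) * w + R) := by
      rw [← Real.rpow_natCast]
      exact Real.rpow_le_rpow_of_exponent_le (by norm_num) hq
    rw [mbth_MAI, hcard]
    have h2β : (35 : ℝ) / ((2 : ℝ) ^ β / 36) = 1260 * (2 : ℝ) ^ (-(β : ℝ)) := by
      rw [Real.rpow_neg (by norm_num), Real.rpow_intCast]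
      field_simp
      norm_num
    rw [h2β]
    calc (2 : ℝ) ^ (-(p * w)) * (2 ^ q w * (f w * 2 ^ w) * (1260 * (2 : ℝ) ^ (-(β : ℝ))))
        ≤ (2 : ℝ) ^ (-(p * w)) * ((2 : ℝ) ^ ((p - 1) * w + R) * (f w * 2 ^ w) *
          (1260 * (2 : ℝ) ^ (-(β : ℝ)))) := by
          have h01 := (hf01 w hw).1
          generalize f w = fw at h01 ⊢
          have k1 : 0 ≤ fw * 2 ^ w := by positivity
          have k2 := mul_le_mul_of_nonneg_right h2q k1
          have k3 := mul_le_mul_of_nonneg_right k2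
            (show (0:ℝ) ≤ 1260 * (2 : ℝ) ^ (-(β : ℝ)) by positivity)
          exact mul_le_mul_of_nonneg_left k3 (by positivity)
      _ = 1260 * ((2 : ℝ) ^ (-(p * w)) * (2 : ℝ) ^ ((p - 1) * w + R) * (2 : ℝ) ^ (w : ℝ) *
          (2 : ℝ) ^ (-(β : ℝ))) * f w := by
          rw [Real.rpow_natCast]
          ring
      _ = 1260 * (2 : ℝ) ^ ((R : ℝ) - β) * f w := by
          rw [← Real.rpow_add (by norm_num), ← Real.rpow_add (by norm_num),
            ← Real.rpow_add (by norm_num)]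
          congr 3
          ring
      _ ≤ C' * (2 : ℝ) ^ (C' * T) * f w := by
          have h6 : (2 : ℝ) ^ ((R : ℝ) - β) ≤ (2 : ℝ) ^ (C' * T) := by
            refine le_trans ?_ h2T'
            apply Real.rpow_le_rpow_of_exponent_le (by norm_num)
            linarith
          have h01 := (hf01 w hw).1
          generalize f w = fw at h01 ⊢
          have k1 : 1260 * (2 : ℝ) ^ ((R : ℝ) - β) ≤ C' * (2 : ℝ) ^ (C' * T) := by
            have k0 : (1260:ℝ) ≤ C' := by linarith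
            exact mul_le_mul k0 h6 (by positivity) (by linarith)
          exact mul_le_mul_of_nonneg_right k1 h01
  -- truncation
  set S : ℕ → Set Pl := fun w => {z | cw w z ≤ ENNReal.ofReal ρ₀} with hSdef
  set c' : ℕ → Pl → ℝ≥0∞ := fun w => (S w).indicator (cw w) with hc'
  have hSm : ∀ w ∈ W, MeasurableSet (S w) := fun w hw =>
    measurableSet_le (hS w hw).2.2.1 measurable_const
  have hc'm : ∀ w ∈ W, Measurable (c' w) := fun w hw => (hS w hw).2.2.1.indicator (hSm w hw)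
  have hc'le : ∀ w z, c' w z ≤ cw w z := fun w z => indicator_le_self _ _ _
  have hc'ρ : ∀ w z, c' w z ≤ ENNReal.ofReal ρ₀ := by
    intro w z
    simp only [hc']
    by_cases hz : z ∈ S w
    · rw [indicator_of_mem hz]
      exact hz
    · rw [indicator_of_notMem hz]
      exact bot_le
  have hint : ∀ w ∈ W, ∫⁻ z, cw w z ≤ 2 * ∫⁻ z, c' w z := by
    intro w hw
    obtain ⟨-, -, h3, h4, -⟩ := hW w hw
    have h1 := hTR R Y β w (q w) (i w) (J w) (sl w) (fl w) (D w) al E (ω w) (hwf w hw).1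
      (hwf w hw).2.2.2 h3 (hω w hw).1 h4 hE hal0 hal1 hRY
    have h2 : ∫⁻ z, c' w z = ∫⁻ z in S w, cw w z := lintegral_indicator (hSm w hw) _
    rw [h2]
    exact h1
  have hpair : ∀ w ∈ W, ∀ u ∈ W, w < u → ∫⁻ z, c' w z * c' u z ≤
      ENNReal.ofReal (Φ * ((2 : ℝ) ^ (-(η * w)) + (2 : ℝ) ^ (-(η * ((u : ℝ) - w))))) *
        ((∫⁻ z, c' w z) + ∫⁻ z, c' u z) := by
    intro w hw u hu hwu
    obtain ⟨-, -, h3, h4, -⟩ := hW w hw
    obtain ⟨-, -, k3, k4, -⟩ := hW u hu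
    have h1 := hP e₁ R Y β w u (q w) (q u) (i w) (i u) (J w) (J u) (sl w) (sl u) (fl w) (fl u) (D w) (D u)
      al ρ E (ω w) (ω u) (hwf w hw).2.2.2 (hwf u hu).2.2.2 hwu (hwf w hw).2.1 (hwf u hu).2.1 h3
      (hω w hw).1 k3 (hω u hu).1 h4 k4 hE hρ1
    have h2 : ∫⁻ z, c' w z * c' u z ≤
        ∫⁻ z, min (cg p w (J w) (ω w) z) (ENNReal.ofReal ρ) * min (cg p u (J u) (ω u) z) (ENNReal.ofReal ρ) := by
      refine lintegral_mono fun z => ?_
      have hρle : ENNReal.ofReal ρ₀ ≤ ENNReal.ofReal ρ := ENNReal.ofReal_le_ofReal hρρ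
      exact mul_le_mul' (le_min (hc'le w z) ((hc'ρ w z).trans hρle))
        (le_min (hc'le u z) ((hc'ρ u z).trans hρle))
    have h5 : (∫⁻ z, cg p w (J w) (ω w) z) + ∫⁻ z, cg p u (J u) (ω u) z ≤
        2 * ((∫⁻ z, c' w z) + ∫⁻ z, c' u z) := by
      rw [mul_add]
      exact add_le_add (hint w hw) (hint u hu)
    set g : ℝ := (2 : ℝ) ^ (-(η * w)) + (2 : ℝ) ^ (-(η * ((u : ℝ) - w))) with hg
    have hg0 : 0 < g := by positivity
    calc ∫⁻ z, c' w z * c' u z ≤ ENNReal.ofReal (CP * ρ ^ 2 * (2 : ℝ) ^ (CP * T) * g) *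
          (2 * ((∫⁻ z, c' w z) + ∫⁻ z, c' u z)) := (h2.trans h1).trans (mul_le_mul' le_rfl h5)
      _ = ENNReal.ofReal (2 * (CP * ρ ^ 2 * (2 : ℝ) ^ (CP * T) * g)) *
          ((∫⁻ z, c' w z) + ∫⁻ z, c' u z) := by
          rw [ENNReal.ofReal_mul (by norm_num : (0 : ℝ) ≤ 2)]
          simp only [ENNReal.ofReal_ofNat]
          ring
      _ ≤ ENNReal.ofReal (Φ * g) * ((∫⁻ z, c' w z) + ∫⁻ z, c' u z) := by
          refine mul_le_mul' (ENNReal.ofReal_le_ofReal ?_) le_rfl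
          have h6 : ρ ^ 2 ≤ C₀ ^ 2 * (2 : ℝ) ^ (2 * T) := by
            calc ρ ^ 2 ≤ (C₀ * (2 : ℝ) ^ T) ^ 2 := by gcongr
              _ = C₀ ^ 2 * (2 : ℝ) ^ (2 * T) := by
                  rw [mul_pow, ← Real.rpow_natCast ((2 : ℝ) ^ T) 2, ← Real.rpow_mul (by norm_num)]
                  congr 2
                  push_cast
                  ring
          calc 2 * (CP * ρ ^ 2 * (2 : ℝ) ^ (CP * T) * g)
              ≤ 2 * (CP * (C₀ ^ 2 * (2 : ℝ) ^ (2 * T)) * (2 : ℝ) ^ (CP * T) * g) := by gcongr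
            _ = (2 * CP * C₀ ^ 2) * ((2 : ℝ) ^ (2 * T) * (2 : ℝ) ^ (CP * T)) * g := by ring
            _ = (2 * CP * C₀ ^ 2) * (2 : ℝ) ^ ((2 + CP) * T) * g := by
                rw [← Real.rpow_add (by norm_num)]
                congr 3
                ring
            _ ≤ C' * (2 : ℝ) ^ (C' * T) * g := by
                have := h2C (2 + CP) hC'5
                gcongr
            _ = Φ * g := by rw [hΦdef]
  have hsumf : ∑ w ∈ W, f w ≤ Φ := by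
    refine hsumJ.trans ?_
    rw [hΦdef]
    have := h2C C₁ hC'2
    gcongr
  have hfin := hL W E c' f Φ ρ₀ hE hΦ1 hρ₀0 hρΦ (fun w hw => ⟨hc'm w hw, fun z hz =>
    ((hS w hw).2.1 z (fun h0 => hz (by
      have := hc'le w z
      rw [h0] at this
      exact le_antisymm this bot_le))).1, hc'ρ w, fun z => (hc'le w z).trans (hcf w hw z),
      (hf01 w hw).1, (hf01 w hw).2⟩) hsumf hpair
  -- numbers
  have hlog : 1 + Real.logb 2 (Φ / ρ₀) + Real.logb 2 Φ ≤ C'' * (1 + T) := by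
    have h1 : Real.logb 2 Φ = lC + C' * T := by
      rw [hΦdef, Real.logb_mul hC'0.ne' (by positivity), Real.logb_rpow (by norm_num) (by norm_num)]
    have h2 : Real.logb 2 ρ₀ = Real.logb 2 C₀ + Real.logb 2 n' + -(c₂ * T) := by
      rw [hρ₀, Real.logb_mul (by positivity) (by positivity), Real.logb_mul (by positivity) (by positivity),
        Real.logb_rpow (by norm_num) (by norm_num)]
    have h3 : 0 ≤ Real.logb 2 C₀ := Real.logb_nonneg (by norm_num) hC₀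
    have h4 : 0 ≤ Real.logb 2 n' := Real.logb_nonneg (by norm_num) hn1
    have h5 : c₂ * T ≤ T := mul_le_of_le_one_left hT0 hc₂1
    rw [Real.logb_div (by positivity) (by positivity), h1, h2]
    have h6 : 0 ≤ lC * T := mul_nonneg hlC0 hT0
    have h7 : 0 ≤ C' * T := mul_nonneg hC'0.le hT0
    have h8 : C'' * (1 + T) = 2 + 2 * lC + 2 * C' + 2 * T + 2 * (lC * T) + 2 * (C' * T) := by
      rw [hC'']; ring
    rw [h8]
    linarith
  have hlogn : 0 ≤ 1 + Real.logb 2 (Φ / ρ₀) + Real.logb 2 Φ := by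
    have h1 : 0 ≤ Real.logb 2 (Φ / ρ₀) :=
      Real.logb_nonneg (by norm_num) ((one_le_div hρ₀0).2 hρΦ)
    have h2 : 0 ≤ Real.logb 2 Φ := Real.logb_nonneg (by norm_num) hΦ1
    linarith
  have hnum : CL * ρ₀ * (1 + Real.logb 2 (Φ / ρ₀) + Real.logb 2 Φ) ^ 3 ≤
      (CL * C₀ * C'' ^ 3 * K) * n' * (2 : ℝ) ^ (-(c₂ / 2 * T)) := by
    calc CL * ρ₀ * (1 + Real.logb 2 (Φ / ρ₀) + Real.logb 2 Φ) ^ 3
        ≤ CL * ρ₀ * (C'' * (1 + T)) ^ 3 := by gcongr
      _ = CL * C₀ * n' * C'' ^ 3 * ((1 + T) ^ 3 * (2 : ℝ) ^ (-(c₂ * T))) := by rw [hρ₀]; ring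
      _ ≤ CL * C₀ * n' * C'' ^ 3 * (K * (2 : ℝ) ^ (-(c₂ / 2 * T))) := by
          have := hK T hT0
          gcongr
      _ = (CL * C₀ * C'' ^ 3 * K) * n' * (2 : ℝ) ^ (-(c₂ / 2 * T)) := by ring
  calc ∑ w ∈ W, ENNReal.ofReal ((2 : ℝ) ^ (-(p * w))) *
        volume (⋃ k : ℤ, Xk E w (q w) (J w) (sl w) (fl w) (cc w) (D w) (th (i w)) (mb (i w) β) k)
      ≤ ∑ w ∈ W, ENNReal.ofReal (8 / 3) * ∫⁻ z, c' w z := by
        refine Finset.sum_le_sum fun w hw => ?_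
        have h1 := (hω w hw).2
        have h2 : ENNReal.ofReal ((2 : ℝ) ^ (-(p * w))) =
            ENNReal.ofReal (4 / 3) * ENNReal.ofReal (3 / 4 * (2 : ℝ) ^ (-(p * w))) := by
          rw [← ENNReal.ofReal_mul (by norm_num)]
          congr 1
          ring
        rw [h2, mul_assoc]
        calc ENNReal.ofReal (4 / 3) * (ENNReal.ofReal (3 / 4 * (2 : ℝ) ^ (-(p * w))) *
              volume (⋃ k : ℤ, Xk E w (q w) (J w) (sl w) (fl w) (cc w) (D w) (th (i w)) (mb (i w) β) k))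
            ≤ ENNReal.ofReal (4 / 3) * (2 * ∫⁻ z, c' w z) :=
              mul_le_mul' le_rfl (h1.trans (hint w hw))
          _ = ENNReal.ofReal (8 / 3) * ∫⁻ z, c' w z := by
              rw [← mul_assoc]
              congr 1
              have h3 : (2 : ℝ≥0∞) = ENNReal.ofReal 2 := by simp
              rw [h3, ← ENNReal.ofReal_mul (by norm_num)]
              congr 1
              norm_num
    _ = ENNReal.ofReal (8 / 3) * ∑ w ∈ W, ∫⁻ z, c' w z := by rw [Finset.mul_sum]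
    _ ≤ ENNReal.ofReal (8 / 3) * (ENNReal.ofReal (CL * ρ₀ *
          (1 + Real.logb 2 (Φ / ρ₀) + Real.logb 2 Φ) ^ 3) * volume E) := mul_le_mul' le_rfl hfin
    _ ≤ ENNReal.ofReal (8 / 3) * (ENNReal.ofReal ((CL * C₀ * C'' ^ 3 * K) * n' *
          (2 : ℝ) ^ (-(c₂ / 2 * T))) * volume E) :=
        mul_le_mul' le_rfl (mul_le_mul' (ENNReal.ofReal_le_ofReal hnum) le_rfl)
    _ ≤ ENNReal.ofReal (Cfin * n' * (2 : ℝ) ^ (-(c₂ / 2 * T))) * volume E := by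
        rw [← mul_assoc, ← ENNReal.ofReal_mul (by norm_num)]
        refine mul_le_mul' (ENNReal.ofReal_le_ofReal ?_) le_rfl
        rw [hCfin]
        have h9 : 0 ≤ (CL * C₀ * C'' ^ 3 * K) * n' * (2 : ℝ) ^ (-(c₂ / 2 * T)) := by positivity
        linarith

end Pool.Agent.Helper2.ES
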