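import Pool.Agent.Helper68.ES.St2

/-!
# Project ES, module PLM: the process lemma
-/

set_option autoImplicit false

open MeasureTheory Set Filter Topology
open scoped ENNReal RealInnerProductSpace

namespace Pool.Agent.Helper2.ES

open Pool.Agent.Helper68.ES Pool.Agent.Helper68.EP Pool.Agent.Helper20.RG
open Pool.Agent.Helper20.RL (RQ Rich BM Fml Hit)
open Pool.Agent.Helper68.LM (Pl BB Bd Av HL ft fm DQ)

/-! ### layers -/

private lemma div_iff_PLM {g : ℕ} (hg : 1 ≤ g) (x l : ℤ) :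
    x / (g : ℤ) = l ↔ l * g ≤ x ∧ x ≤ (l + 1) * g - 1 := by
  have hg' : (0 : ℤ) < g := by exact_mod_cast hg
  constructor
  · rintro rfl
    have h1 := Int.ediv_mul_le x hg'.ne'
    have h2 := Int.lt_ediv_add_one_mul_self x hg'
    omega
  · rintro ⟨h1, h2⟩
    apply le_antisymm
    · have : x / (g : ℤ) < l + 1 := (Int.ediv_lt_iff_lt_mul hg').2 (by omega)
      omega
    · exact (Int.le_ediv_iff_mul_le hg').2 h1

private lemma Ly_meas_PLM {H : Set Pl} {κ : Pl → ℤ} (hκ : ∀ b : ℤ, MeasurableSet {z | z ∈ H ∧ κ z ≤ b})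
    {g : ℕ} (hg : 1 ≤ g) (l : ℤ) : MeasurableSet (Ly H κ g l) := by
  have : Ly H κ g l = {z | z ∈ H ∧ κ z ≤ (l + 1) * g - 1} \ {z | z ∈ H ∧ κ z ≤ l * g - 1} := by
    ext z
    simp only [Ly, mem_ofPred_eq, Set.mem_sdiff, div_iff_PLM hg]
    constructor
    · rintro ⟨h1, h2, h3⟩
      exact ⟨⟨h1, h3⟩, fun h => by omega⟩
    · rintro ⟨⟨h1, h2⟩, h3⟩
      refine ⟨h1, ?_, h2⟩
      by_contra h
      exact h3 ⟨h1, by omega⟩
  rw [this]
  exact (hκ _).diff (hκ _)

private lemma Ly_disj_PLM (H : Set Pl) (κ : Pl → ℤ) (g : ℕ) :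
    Pairwise (Function.onFun Disjoint (Ly H κ g)) := by
  intro l l' hll
  rw [Function.onFun, Set.disjoint_left]
  intro z hz hz'
  exact hll (hz.2.symm.trans hz'.2)

private lemma Ly_union_PLM (H : Set Pl) (κ : Pl → ℤ) (g : ℕ) : ⋃ l, Ly H κ g l = H := by
  ext z
  simp only [mem_iUnion]
  constructor
  · rintro ⟨l, hl⟩
    exact hl.1
  · intro h
    exact ⟨κ z / g, h, rfl⟩

/-! ### sums over cells -/

/-- the cell with given indices -/
private def CC (s : ℝ) (a b : ℤ) (n : ℤ × ℤ) : Set Pl :=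
  {z | (⌊z 0 / (2 : ℝ) ^ a⌋, ⌊pr s z / (2 : ℝ) ^ b⌋) = n}

private lemma CC_eq {s : ℝ} {a b : ℤ} {n : ℤ × ℤ} {z : Pl} (hz : z ∈ CC s a b n) :
    CC s a b n = RQ s a b z := by
  ext y
  simp only [CC, RQ, mem_ofPred_eq] at hz ⊢
  rw [← hz, Prod.mk.injEq]

private lemma poor_PLM (hLGR : Pool.Agent.Helper20.RL.StLGR) {s : ℝ} {a b : ℤ} {θ θ' : ℝ}
    (hθ : 0 < θ) (hθ' : 0 < θ') {G W : Set Pl} {ω : Pl → ℝ≥0∞} (hG : MeasurableSet G)
    (hT : MeasurableSet {z | z ∈ W ∧ ¬ Rich W s a b θ' z})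
    (hsupp : ∀ z, ω z ≠ 0 → z ∈ G ∧ Rich G s a b θ z)
    (hcell : ∀ z z' : Pl, z ∈ G → z' ∈ G → z' ∈ RQ s a b z → ω z' = ω z) :
    ∫⁻ z in {z | z ∈ W ∧ ¬ Rich W s a b θ' z}, ω z ≤ ENNReal.ofReal (θ' / θ) * ∫⁻ z, ω z := by
  obtain ⟨g1, g2, -, -, g5⟩ := hLGR
  set T : Set Pl := {z | z ∈ W ∧ ¬ Rich W s a b θ' z} with hTdef
  have hCm : ∀ n, MeasurableSet (CC s a b n) := by
    intro n
    refine g5 s a b _ ?_
    intro y hy
    rw [← CC_eq hy]
  have hCd : Pairwise (Function.onFun Disjoint (CC s a b)) := by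
    intro n n' hn
    rw [Function.onFun, Set.disjoint_left]
    intro z hz hz'
    exact hn (hz.symm.trans hz')
  have hCu : ⋃ n, CC s a b n = (univ : Set Pl) := by
    ext z
    simp only [mem_iUnion, mem_univ, iff_true]
    exact ⟨_, rfl⟩
  have e1 : ∫⁻ z in T, ω z = ∑' n, ∫⁻ z in T ∩ CC s a b n, ω z := by
    have : T = ⋃ n, (T ∩ CC s a b n) := by rw [← inter_iUnion, hCu, inter_univ]
    conv_lhs => rw [this]
    refine lintegral_iUnion (fun n => hT.inter (hCm n)) ?_ _
    intro n n' hn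
    exact (hCd hn).mono inter_subset_right inter_subset_right
  have e2 : ∫⁻ z, ω z = ∑' n, ∫⁻ z in CC s a b n, ω z := by
    rw [← lintegral_iUnion hCm hCd, hCu, setLIntegral_univ]
  rw [e1, e2, ← ENNReal.tsum_mul_left]
  refine ENNReal.tsum_le_tsum fun n => ?_
  by_cases hne : ∃ z ∈ T ∩ CC s a b n, ω z ≠ 0
  · obtain ⟨z₀, ⟨hzT, hzC⟩, hz0⟩ := hne
    obtain ⟨hzG, hzR⟩ := hsupp z₀ hz0
    have hCz := CC_eq hzC
    have hle : ∀ z ∈ T ∩ CC s a b n, ω z ≤ ω z₀ := by
      intro z hz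
      by_cases h0 : ω z = 0
      · rw [h0]; exact bot_le
      · have hzG' := (hsupp z h0).1
        have : z ∈ RQ s a b z₀ := by rw [← hCz]; exact hz.2
        exact (hcell z₀ z hzG hzG' this).le
    have h1 : ∫⁻ z in T ∩ CC s a b n, ω z ≤ ω z₀ * volume (T ∩ CC s a b n) := by
      rw [← setLIntegral_const]
      exact setLIntegral_mono' (hT.inter (hCm n)) hle
    have h2 : volume (T ∩ CC s a b n) ≤ ENNReal.ofReal (θ' * (2 : ℝ) ^ (a + b)) := by
      have hpoor : ¬ Rich W s a b θ' z₀ := hzT.2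
      unfold Rich at hpoor
      rw [not_le] at hpoor
      refine le_trans (measure_mono ?_) hpoor.le
      rw [hCz]
      exact inter_subset_inter_left _ fun z hz => hz.1
    have h3 : ω z₀ * volume (G ∩ CC s a b n) ≤ ∫⁻ z in CC s a b n, ω z := by
      calc ω z₀ * volume (G ∩ CC s a b n) = ∫⁻ z in G ∩ CC s a b n, ω z₀ := by
            rw [setLIntegral_const]
        _ ≤ ∫⁻ z in G ∩ CC s a b n, ω z := by
            refine setLIntegral_mono' (hG.inter (hCm n)) ?_
            intro z hz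
            have : z ∈ RQ s a b z₀ := by rw [← hCz]; exact hz.2
            exact (hcell z₀ z hzG hz.1 this).ge
        _ ≤ ∫⁻ z in CC s a b n, ω z := lintegral_mono_set inter_subset_right
    have h4 : ENNReal.ofReal (θ * (2 : ℝ) ^ (a + b)) ≤ volume (G ∩ CC s a b n) := by
      rw [hCz]
      exact hzR
    have h5 : ENNReal.ofReal (θ' * (2 : ℝ) ^ (a + b)) =
        ENNReal.ofReal (θ' / θ) * ENNReal.ofReal (θ * (2 : ℝ) ^ (a + b)) := by
      rw [← ENNReal.ofReal_mul (by positivity)]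
      congr 1
      field_simp
    calc ∫⁻ z in T ∩ CC s a b n, ω z ≤ ω z₀ * volume (T ∩ CC s a b n) := h1
      _ ≤ ω z₀ * ENNReal.ofReal (θ' * (2 : ℝ) ^ (a + b)) := by gcongr
      _ = ENNReal.ofReal (θ' / θ) * (ω z₀ * ENNReal.ofReal (θ * (2 : ℝ) ^ (a + b))) := by
          rw [h5]; ring
      _ ≤ ENNReal.ofReal (θ' / θ) * (ω z₀ * volume (G ∩ CC s a b n)) := by gcongr
      _ ≤ ENNReal.ofReal (θ' / θ) * ∫⁻ z in CC s a b n, ω z := by gcongr
  · push Not at hne
    have : ∫⁻ z in T ∩ CC s a b n, ω z = 0 := by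
      rw [setLIntegral_congr_fun (hT.inter (hCm n)) hne]
      simp
    rw [this]
    exact bot_le

theorem hPLM (hLGR : Pool.Agent.Helper20.RL.StLGR) (hLFM : Pool.Agent.Helper20.RL.StLFM)
    (hEFB : Pool.Agent.Helper68.EP.StEFB) : Pool.Agent.Helper68.ES.StPLM := by
  intro p CH E H u q g L₀ J sl fl D θ m lam Lam ω κ R hC hE hH hκ hg hL₀ hR hm hθ hlam hLam hH0 hch hcg
  obtain ⟨m1, m2⟩ := hLFM
  have hEg : ∀ k : ℤ, MeasurableSet (Eg E D q k) := by
    intro k
    exact ((hEFB.1 E D _).2.1 hE.1).diff ((hEFB.1 E D _).2.1 hE.1)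
  have hHfin : volume H ≠ ∞ := hH.2.measure_lt_top.ne
  set θ' : ℝ := lam * θ / (2 * (L₀ + 2) * Lam) with hθ'def
  have hLp : (0 : ℝ) < (L₀ : ℝ) + 2 := by positivity
  have hθ' : 0 < θ' := by positivity
  set L : ℤ → Set Pl := Ly H κ g with hLdef
  have hLm : ∀ l, MeasurableSet (L l) := fun l => Ly_meas_PLM hκ hg l
  have hLd : Pairwise (Function.onFun Disjoint L) := Ly_disj_PLM H κ g
  have hLu : ⋃ l, L l = H := Ly_union_PLM H κ g
  set P : ℝ≥0∞ := ENNReal.ofReal ((2 : ℝ) ^ (-(p * u))) with hPdef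
  -- rich and poor parts
  set S : ℤ → ℕ → ℤ → Set Pl := fun k j l => {z | z ∈ R k j ∩ L l ∧
    Rich (R k j ∩ L l) (sl j) (k - (u : ℤ)) (k - (fl j : ℤ)) θ' z} with hSdef
  set T : ℤ → ℕ → ℤ → Set Pl := fun k j l => {z | z ∈ R k j ∩ L l ∧
    ¬ Rich (R k j ∩ L l) (sl j) (k - (u : ℤ)) (k - (fl j : ℤ)) θ' z} with hTdef
  have hWm : ∀ k j l, MeasurableSet (R k j ∩ L l) := fun k j l => (hR k j).1.inter (hLm l)
  have hSm : ∀ k j l, MeasurableSet (S k j l) := fun k j l =>
    (hWm k j l).inter (m1 (R k j ∩ L l) (sl j) (k - (u : ℤ)) (k - (fl j : ℤ)) θ').1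
  have hTm : ∀ k j l, MeasurableSet (T k j l) := fun k j l =>
    (hWm k j l).inter (m1 (R k j ∩ L l) (sl j) (k - (u : ℤ)) (k - (fl j : ℤ)) θ').1.compl
  have hST : ∀ k j l, R k j ∩ L l ⊆ S k j l ∪ T k j l := by
    intro k j l z hz
    by_cases h : Rich (R k j ∩ L l) (sl j) (k - (u : ℤ)) (k - (fl j : ℤ)) θ' z
    · exact Or.inl ⟨hz, h⟩
    · exact Or.inr ⟨hz, h⟩
  -- scales
  have hsc : ∀ k j l, ∀ z ∈ R k j ∩ L l, l * g + 64 * g ≤ k ∧ k < l * g + (L₀ + 2) * g := by
    intro k j l z hz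
    obtain ⟨h1, h2⟩ := (hR k j).2.2 z hz.1
    have h3 := (div_iff_PLM hg (κ z) l).1 hz.2.2
    have hg' : (0 : ℤ) < g := by exact_mod_cast hg
    constructor
    · linarith [h3.1]
    · nlinarith [h3.2]
  -- the integral over R k j
  have hsplit : ∀ k j, ∫⁻ z in R k j, ω k j z ≤
      ∑' l, (∫⁻ z in S k j l, ω k j z) + ∑' l, ∫⁻ z in T k j l, ω k j z := by
    intro k j
    have h1 : R k j = ⋃ l, (R k j ∩ L l) := by
      rw [← inter_iUnion, hLu, inter_eq_left.2 (hR k j).2.1]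
    have h2 : ∫⁻ z in R k j, ω k j z = ∑' l, ∫⁻ z in R k j ∩ L l, ω k j z := by
      conv_lhs => rw [h1]
      refine lintegral_iUnion (fun l => hWm k j l) ?_ _
      intro l l' hl
      exact (hLd hl).mono inter_subset_right inter_subset_right
    rw [h2, ← ENNReal.tsum_add]
    refine ENNReal.tsum_le_tsum fun l => ?_
    exact (lintegral_mono_set (hST k j l)).trans (lintegral_union_le _ _ _)
  -- the poor part
  have hpoor : ∀ k j, ∑' l, ∫⁻ z in T k j l, ω k j z ≤
      ENNReal.ofReal (lam / (2 * Lam)) * ∫⁻ z, ω k j z := by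
    intro k j
    have hg' : (0 : ℤ) < g := by exact_mod_cast hg
    have hzero : ∀ l ∉ Finset.Icc (k / (g : ℤ) - L₀) (k / (g : ℤ)), ∫⁻ z in T k j l, ω k j z = 0 := by
      intro l hl
      have : T k j l = ∅ := by
        by_contra hne
        obtain ⟨z, hz⟩ := nonempty_iff_ne_empty.2 hne
        apply hl
        obtain ⟨h1, h2⟩ := hsc k j l z hz.1
        obtain ⟨h3, h4⟩ := (hR k j).2.2 z hz.1.1
        have h5 := (div_iff_PLM hg (κ z) l).1 hz.1.2.2
        rw [Finset.mem_Icc]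
        constructor
        · have : k / (g : ℤ) < l + 1 + L₀ := by
            rw [Int.ediv_lt_iff_lt_mul hg']
            nlinarith [h5.2]
          omega
        · rw [Int.le_ediv_iff_mul_le hg']
          nlinarith
      rw [this]
      simp
    rw [tsum_eq_sum hzero]
    calc ∑ l ∈ Finset.Icc (k / (g : ℤ) - L₀) (k / (g : ℤ)), ∫⁻ z in T k j l, ω k j z
        ≤ ∑ l ∈ Finset.Icc (k / (g : ℤ) - L₀) (k / (g : ℤ)),
          ENNReal.ofReal (θ' / θ) * ∫⁻ z, ω k j z := by
          refine Finset.sum_le_sum fun l _ => ?_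
          refine poor_PLM hLGR hθ hθ' (hEg k) (hTm k j l) ?_ ?_
          · intro z hz
            exact ⟨(hC.supp k j z hz).2.1, (hC.supp k j z hz).2.2⟩
          · intro z z' hz hz' hzz
            exact hC.cell k j z z' hz hz' hzz
      _ = ((L₀ + 1 : ℕ) : ℝ≥0∞) * (ENNReal.ofReal (θ' / θ) * ∫⁻ z, ω k j z) := by
          rw [Finset.sum_const, nsmul_eq_mul, Int.card_Icc]
          congr 2
          omega
      _ ≤ ENNReal.ofReal (lam / (2 * Lam)) * ∫⁻ z, ω k j z := by
          rw [← mul_assoc]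
          refine mul_le_mul_left ?_ _
          rw [← ENNReal.ofReal_natCast, ← ENNReal.ofReal_mul (by positivity)]
          apply ENNReal.ofReal_le_ofReal
          have : θ' / θ = lam / (2 * (L₀ + 2) * Lam) := by
            rw [hθ'def]; field_simp
          rw [this]
          push_cast
          rw [mul_div_assoc', div_le_div_iff₀ (by positivity) (by positivity)]
          nlinarith [mul_pos hlam hLam, mul_pos (mul_pos hlam hLam) hLp]
  set c : ℝ≥0∞ := ENNReal.ofReal (lam / (2 * Lam)) with hcdef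
  have hcgI : ∫⁻ z, cg p u J ω z = P * ∑' k, ∑ j ∈ J, ∫⁻ z, ω k j z := by
    unfold cg
    rw [lintegral_const_mul _ (Measurable.ennreal_tsum fun k =>
      Finset.measurable_sum _ fun j _ => hC.meas k j),
      lintegral_tsum fun k => (Finset.measurable_sum _ fun j _ => hC.meas k j).aemeasurable]
    congr 2
    funext k
    exact lintegral_finsetSum _ fun j _ => hC.meas k j
  have hA1 : ENNReal.ofReal lam * volume H ≤
      P * (∑' k, ∑ j ∈ J, ∑' l, ∫⁻ z in S k j l, ω k j z) +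
        ENNReal.ofReal (lam / 2) * volume H := by
    refine hch.trans ?_
    unfold ch
    calc P * ∑' k, ∑ j ∈ J, ∫⁻ z in R k j, ω k j z
        ≤ P * ∑' k, ∑ j ∈ J, ((∑' l, ∫⁻ z in S k j l, ω k j z) + c * ∫⁻ z, ω k j z) := by
          gcongr with k j hj
          exact (hsplit k j).trans (add_le_add_right (hpoor k j) _)
      _ = P * (∑' k, ∑ j ∈ J, ∑' l, ∫⁻ z in S k j l, ω k j z) +
          c * (P * ∑' k, ∑ j ∈ J, ∫⁻ z, ω k j z) := by
          have : ∀ k, ∑ j ∈ J, ((∑' l, ∫⁻ z in S k j l, ω k j z) + c * ∫⁻ z, ω k j z) =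
              (∑ j ∈ J, ∑' l, ∫⁻ z in S k j l, ω k j z) + c * ∑ j ∈ J, ∫⁻ z, ω k j z := by
            intro k
            rw [Finset.sum_add_distrib, Finset.mul_sum]
          simp_rw [this]
          rw [ENNReal.tsum_add, ENNReal.tsum_mul_left]
          ring
      _ ≤ P * (∑' k, ∑ j ∈ J, ∑' l, ∫⁻ z in S k j l, ω k j z) +
          c * (ENNReal.ofReal Lam * volume H) := by
          rw [← hcgI]
          gcongr
      _ = P * (∑' k, ∑ j ∈ J, ∑' l, ∫⁻ z in S k j l, ω k j z) +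
          ENNReal.ofReal (lam / 2) * volume H := by
          rw [← mul_assoc, hcdef, ← ENNReal.ofReal_mul (by positivity)]
          congr 3
          field_simp
  have hA2 : ENNReal.ofReal (lam / 2) * volume H ≤
      P * (∑' k, ∑ j ∈ J, ∑' l, ∫⁻ z in S k j l, ω k j z) := by
    have h1 : ENNReal.ofReal lam * volume H =
        ENNReal.ofReal (lam / 2) * volume H + ENNReal.ofReal (lam / 2) * volume H := by
      rw [← add_mul, ← ENNReal.ofReal_add (by positivity) (by positivity)]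
      congr 2
      ring
    rw [h1] at hA1
    exact (ENNReal.add_le_add_iff_right
      (ENNReal.mul_ne_top ENNReal.ofReal_ne_top hHfin)).1 hA1
  set A : ℤ → ℝ≥0∞ := fun l => P * ∑' k, ∑ j ∈ J, ∫⁻ z in S k j l, ω k j z with hAdef
  have hA3 : ∑' l, A l = P * (∑' k, ∑ j ∈ J, ∑' l, ∫⁻ z in S k j l, ω k j z) := by
    rw [hAdef]
    simp only
    rw [ENNReal.tsum_mul_left, ENNReal.tsum_comm]
    congr 2
    funext k
    exact Summable.tsum_finsetSum fun j _ => ENNReal.summable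
  have hvolH : volume H = ∑' l, volume (L l) := by
    conv_lhs => rw [← hLu]
    exact measure_iUnion hLd hLm
  obtain ⟨l, hl0, hlA⟩ : ∃ l, 0 < volume (L l) ∧ ENNReal.ofReal (lam / 2) * volume (L l) ≤ A l := by
    by_contra hcon
    push Not at hcon
    obtain ⟨l₀, hl₀⟩ : ∃ l₀, 0 < volume (L l₀) := by
      by_contra hz
      push Not at hz
      have : volume H = 0 := by
        rw [hvolH]
        simp [fun l => le_antisymm (hz l) bot_le]
      exact hH0.ne' this
    have hle : ∀ l, A l ≤ ENNReal.ofReal (lam / 2) * volume (L l) := by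
      intro l
      by_cases h : 0 < volume (L l)
      · exact (hcon l h).le
      · have h0 : volume (L l) = 0 := by simpa using h
        have : A l = 0 := by
          have hz : ∀ k j, ∫⁻ z in S k j l, ω k j z = 0 := by
            intro k j
            refine setLIntegral_measure_zero _ _ (measure_mono_null ?_ h0)
            exact fun z hz => hz.1.2
          rw [hAdef]
          simp [hz]
        rw [this]
        exact bot_le
    have hfin : ∑' l, A l ≠ ∞ := by
      refine ne_top_of_le_ne_top ?_ (ENNReal.tsum_le_tsum hle)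
      rw [ENNReal.tsum_mul_left, ← hvolH]
      exact ENNReal.mul_ne_top ENNReal.ofReal_ne_top hHfin
    have hlt := ENNReal.tsum_lt_tsum hfin hle (hcon l₀ hl₀)
    rw [hA3, ENNReal.tsum_mul_left, ← hvolH] at hlt
    exact absurd hA2 (not_le.2 hlt)
  -- choice of k
  set K : Finset ℤ := Finset.Ico (l * g) (l * g + (L₀ + 2) * g) with hKdef
  have hKc : K.card = (L₀ + 2) * g := by
    rw [hKdef, Int.card_Ico]
    have : l * (g : ℤ) + (L₀ + 2) * g - l * g = (((L₀ + 2) * g : ℕ) : ℤ) := by push_cast; ring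
    rw [this, Int.toNat_natCast]
  have hKn : K.Nonempty := by
    rw [← Finset.card_pos, hKc]
    positivity
  have hAK : A l = ∑ k ∈ K, P * ∑ j ∈ J, ∫⁻ z in S k j l, ω k j z := by
    rw [← Finset.mul_sum, hAdef]
    simp only
    congr 1
    refine tsum_eq_sum fun k hk => ?_
    refine Finset.sum_eq_zero fun j _ => ?_
    have : S k j l = ∅ := by
      by_contra hne
      obtain ⟨z, hz⟩ := nonempty_iff_ne_empty.2 hne
      apply hk
      obtain ⟨h1, h2⟩ := hsc k j l z hz.1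
      rw [hKdef, Finset.mem_Ico]
      have hg' : (0 : ℤ) < g := by exact_mod_cast hg
      exact ⟨by linarith, h2⟩
    rw [this]
    simp
  set Nn : ℝ := ((L₀ : ℝ) + 2) * g with hNn
  have hg0 : (0 : ℝ) < g := by exact_mod_cast hg
  have hNpos : 0 < Nn := by positivity
  obtain ⟨k, hkK, hk⟩ : ∃ k ∈ K, ENNReal.ofReal (lam / (2 * Nn)) * volume (L l) ≤
      P * ∑ j ∈ J, ∫⁻ z in S k j l, ω k j z := by
    refine ENNReal.exists_le_of_sum_le hKn ?_
    rw [← hAK, Finset.sum_const, hKc, nsmul_eq_mul, ← mul_assoc]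
    refine le_trans (le_of_eq ?_) hlA
    congr 1
    rw [← ENNReal.ofReal_natCast, ← ENNReal.ofReal_mul (by positivity)]
    congr 1
    push_cast
    rw [← hNn]
    field_simp
  have hV : P * ∑ j ∈ J, ∫⁻ z in S k j l, ω k j z ≤
      P * (ENNReal.ofReal (35 / (m * θ)) * ∑ j ∈ J, volume (S k j l)) := by
    gcongr
    rw [Finset.mul_sum]
    refine Finset.sum_le_sum fun j _ => ?_
    rw [← setLIntegral_const]
    exact setLIntegral_mono' (hSm k j l) fun z _ => hC.le k j z
  have hfinal : ENNReal.ofReal (lam * (m * θ) * (2 : ℝ) ^ (p * u) / (70 * ((L₀ + 2) * g))) *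
      volume (L l) ≤ ∑ j ∈ J, volume (S k j l) := by
    have h1 := hk.trans hV
    have hpow : (2 : ℝ) ^ (-(p * u)) * (2 : ℝ) ^ (p * u) = 1 := by
      rw [← Real.rpow_add (by norm_num)]
      simp
    have hp1 : (0 : ℝ) < (2 : ℝ) ^ (p * u) := by positivity
    calc ENNReal.ofReal (lam * (m * θ) * (2 : ℝ) ^ (p * u) / (70 * ((L₀ + 2) * g))) * volume (L l)
        = ENNReal.ofReal ((m * θ) * (2 : ℝ) ^ (p * u) / 35) *
          (ENNReal.ofReal (lam / (2 * Nn)) * volume (L l)) := by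
          have e : ENNReal.ofReal (lam * (m * θ) * (2 : ℝ) ^ (p * u) / (70 * ((L₀ + 2) * g))) =
              ENNReal.ofReal ((m * θ) * (2 : ℝ) ^ (p * u) / 35) *
                ENNReal.ofReal (lam / (2 * Nn)) := by
            rw [← ENNReal.ofReal_mul (by positivity)]
            congr 1
            rw [hNn]
            field_simp
            ring
          rw [e, mul_assoc]
      _ ≤ ENNReal.ofReal ((m * θ) * (2 : ℝ) ^ (p * u) / 35) *
          (P * (ENNReal.ofReal (35 / (m * θ)) * ∑ j ∈ J, volume (S k j l))) := by gcongr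
      _ = ∑ j ∈ J, volume (S k j l) := by
          have e : ENNReal.ofReal ((m * θ) * (2 : ℝ) ^ (p * u) / 35) *
              (P * ENNReal.ofReal (35 / (m * θ))) = 1 := by
            rw [hPdef, ← ENNReal.ofReal_mul (by positivity), ← ENNReal.ofReal_mul (by positivity),
              ← ENNReal.ofReal_one]
            congr 1
            rw [Real.rpow_neg (by norm_num)]
            field_simp
          rw [← mul_assoc P, ← mul_assoc, e, one_mul]
  refine ⟨l, k, hl0, ?_, hfinal⟩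
  have hpos : 0 < ∑ j ∈ J, volume (S k j l) := by
    refine lt_of_lt_of_le ?_ hfinal
    refine ENNReal.mul_pos ?_ hl0.ne'
    rw [Ne, ENNReal.ofReal_eq_zero, not_le]
    positivity
  obtain ⟨j, -, hj⟩ : ∃ j ∈ J, volume (S k j l) ≠ 0 := by
    by_contra hcon
    push Not at hcon
    exact hpos.ne' (Finset.sum_eq_zero hcon)
  obtain ⟨z, hz⟩ := nonempty_of_measure_ne_zero hj
  exact ⟨z, hz.1.2, ((hR k j).2.2 z hz.1.1).1⟩

end Pool.Agent.Helper2.ES
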