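import Pool.Agent.Helper68.ES.St2

/-!
# Project ES, module TON: one class
-/

set_option autoImplicit false

open MeasureTheory Set Filter Topology
open scoped ENNReal RealInnerProductSpace

namespace Pool.Agent.Helper2.ES

open Pool.Agent.Helper68.ES Pool.Agent.Helper68.EP Pool.Agent.Helper20.RG
open Pool.Agent.Helper20.RL (RQ Rich BM Fml Hit)
open Pool.Agent.Helper68.LM (Pl BB Bd Av HL ft fm DQ)

private lemma mbth_TON (i : ℕ) (β : ℤ) : mb i β * th i = (2 : ℝ) ^ β / 36 := by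
  unfold mb th
  rw [mul_div_assoc', ← zpow_add₀ (by norm_num)]
  congr 2
  ring

private lemma th_pos_TON (i : ℕ) : 0 < th i := by unfold th; positivity

private lemma th_le_TON (i : ℕ) : th i ≤ 1 := by
  unfold th
  rw [zpow_neg, zpow_natCast]
  have h1 : (1 : ℝ) ≤ 2 ^ i := one_le_pow₀ (by norm_num)
  have h2 : ((2 : ℝ) ^ i)⁻¹ ≤ 1 := inv_le_one_of_one_le₀ h1
  linarith

private lemma mb_pos_TON (i : ℕ) (β : ℤ) : 0 < mb i β := by unfold mb; positivity

private lemma ev_TON {a b : ℝ} (ha : 0 < a) :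
    ∀ᶠ u : ℕ in atTop, (u : ℝ) ≤ (2 : ℝ) ^ (a * u - b) := by
  have h1 : (1 : ℝ) < (2 : ℝ) ^ a := Real.one_lt_rpow (by norm_num) ha
  have h2 := tendsto_pow_const_div_const_pow_of_one_lt 1 h1
  have h3 : (0 : ℝ) < (2 : ℝ) ^ (-b) := by positivity
  filter_upwards [h2.eventually (gt_mem_nhds h3)] with u hu
  rw [pow_one, div_lt_iff₀ (by positivity)] at hu
  refine hu.le.trans (le_of_eq ?_)
  rw [← Real.rpow_natCast, ← Real.rpow_mul (by norm_num), ← Real.rpow_add (by norm_num)]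
  congr 1
  ring

private lemma ev2_TON {a b : ℝ} (ha : 0 < a) : ∀ᶠ u : ℕ in atTop, b ≤ a * u := by
  have h : Tendsto (fun u : ℕ => a * (u : ℝ)) atTop atTop :=
    Tendsto.const_mul_atTop ha tendsto_natCast_atTop_atTop
  exact h.eventually_ge_atTop b

theorem hTON (hSUP : StSUP) (hTAA : StTAA) (hTNU : StTNU) : Pool.Agent.Helper68.ES.StTON := by
  intro p hp1 hp2 hp3
  obtain ⟨ε, δ₀, c₂, e₁, hε0, hε1, hδ₀, hc₂0, hc₂1, he₁, hN⟩ := hTNU p hp1 hp2 hp3
  set e : ℝ := min e₁ ((p - 1) / 10) with hedef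
  have he0 : 0 < e := lt_min he₁ (by linarith)
  have hee₁ : e ≤ e₁ := min_le_left _ _
  have hep : e ≤ (p - 1) / 10 := min_le_right _ _
  refine ⟨δ₀, c₂, e, hδ₀, hc₂0, hc₂1, he0, ?_⟩
  intro A CH C₁ c δ hA hCH hC₁ hc0 hc1 hδ0 hδ1
  obtain ⟨C₀, hC₀1, hT⟩ := hTAA p A CH ε hp1 hp2 hCH hε0 hε1
  -- the constant for the number of steps
  set B : ℝ := Real.logb 2 (1260 * C₀) + 1 with hBdef
  have hB0 : 0 ≤ B := by
    have : 0 ≤ Real.logb 2 (1260 * C₀) := Real.logb_nonneg (by norm_num) (by linarith)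
    linarith
  set C₁' : ℝ := max C₁ (max 1260 (max B C₀)) with hC₁'
  have hC1a : C₁ ≤ C₁' := le_max_left _ _
  have hC1b : 1260 ≤ C₁' := (le_max_left _ _).trans (le_max_right _ _)
  have hC1c : B ≤ C₁' := (le_max_left _ _).trans ((le_max_right _ _).trans (le_max_right _ _))
  have hC1d : C₀ ≤ C₁' := (le_max_right _ _).trans ((le_max_right _ _).trans (le_max_right _ _))
  have hC₁'1 : 1 ≤ C₁' := hC₁.trans hC1a
  obtain ⟨C₂, hC₂1, hN2⟩ := hN C₁' c δ hC₁'1 hc0 hc1 hδ0 hδ1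
  set C : ℝ := max C₂ 1260 with hCdef
  have hCa : C₂ ≤ C := le_max_left _ _
  have hCb : 1260 ≤ C := le_max_right _ _
  have hC1 : 1 ≤ C := hC₂1.trans hCa
  -- large u
  have hev : ∀ᶠ u : ℕ in atTop, (u : ℝ) ≤ (2 : ℝ) ^ ((p - 1) / 2 * u - (B + 8)) ∧
      B + 14 ≤ (p - 1) / 2 * u ∧ (B + Real.logb 2 C₀ + Real.logb 2 36) ≤ ((p - 1) / 4) * u :=
    (ev_TON (by linarith)).and ((ev2_TON (by linarith)).and (ev2_TON (by linarith)))
  obtain ⟨u₀, hu₀⟩ := eventually_atTop.1 hev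
  refine ⟨u₀, C, hC1, ?_⟩
  intro R Y β u q i J sl fl D al lam Λ₁ E H ω hu hCfg hCls hChg hD hE hal0 hal1 hRY hH hHE hH0 hlam hΛ
    hcg hint
  obtain ⟨hu1, hu2, hu3⟩ := hu₀ u hu
  set T : ℝ := sz R Y β with hTdef
  have hTe : T ≤ e * u := hCfg.adm
  have hRT : |(R : ℝ)| + |(Y : ℝ)| + |(β : ℝ)| = T := rfl
  have hT0 : 0 ≤ T := by rw [← hRT]; positivity
  have hu00 : (0 : ℝ) ≤ u := Nat.cast_nonneg u
  have hTp : T ≤ (p - 1) / 10 * u := hTe.trans (mul_le_mul_of_nonneg_right hep hu00)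
  have hRa := abs_le.1 (le_refl |(R : ℝ)|)
  have hYa := abs_le.1 (le_refl |(Y : ℝ)|)
  have hβa := abs_le.1 (le_refl |(β : ℝ)|)
  have hRn := abs_nonneg (R : ℝ)
  have hYn := abs_nonneg (Y : ℝ)
  have hβn := abs_nonneg (β : ℝ)
  -- q and i
  have hq1 : (q : ℝ) ≤ (p - 1) * u + R := by
    have h1 : (q : ℝ) = (⌊(p - 1) * u⌋ : ℝ) + R := by exact_mod_cast hCfg.hq
    have h2 := Int.floor_le ((p - 1) * (u : ℝ))
    linarith
  have hq2 : (p - 1) * u - 1 - T ≤ q := by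
    have h1 : (q : ℝ) = (⌊(p - 1) * u⌋ : ℝ) + R := by exact_mod_cast hCfg.hq
    have h2 := Int.lt_floor_add_one ((p - 1) * (u : ℝ))
    linarith
  have hi1 : (i : ℝ) ≤ u / p + T := by
    have h1 : (i : ℝ) = (⌊(u : ℝ) / p⌋ : ℝ) + Y := by exact_mod_cast hCfg.hi
    have h2 := Int.floor_le ((u : ℝ) / p)
    linarith
  have hqge : 1 ≤ q := by
    have : (1 : ℝ) ≤ q := by linarith
    exact_mod_cast this
  set mθ : ℝ := mb i β * th i with hmθ
  have hmθe : mθ = (2 : ℝ) ^ β / 36 := mbth_TON i β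
  have hmθ0 : 0 < mθ := mul_pos (mb_pos_TON i β) (th_pos_TON i)
  have hnn1 : 1 ≤ nn c δ R Y β := le_max_left _ _
  -- upper bound of lam
  obtain ⟨z₀, hz₀⟩ := nonempty_of_measure_ne_zero hH0.ne'
  have hS := (hSUP p CH E u q J sl fl D (th i) (mb i β) ω hChg hE hqge hD (th_pos_TON i)
    (mb_pos_TON i β)).1 z₀
  have hlam1 : lam ≤ (2 : ℝ) ^ (-(p * u)) * (2 ^ q * J.card * (35 / mθ)) := by
    have h1 := (hcg z₀ hz₀).trans hS
    rwa [ENNReal.ofReal_le_ofReal_iff (by positivity)] at h1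
  have hcard0 : (0 : ℝ) < J.card := by
    rcases Nat.eq_zero_or_pos J.card with h | h
    · rw [h] at hlam1
      simp at hlam1
      linarith
    · exact_mod_cast h
  have h2q : (2 : ℝ) ^ q * J.card ≤ (2 : ℝ) ^ (p * u + R) := by
    have h1 : (2 : ℝ) ^ q ≤ (2 : ℝ) ^ ((p - 1) * u + R) := by
      rw [← Real.rpow_natCast]
      exact Real.rpow_le_rpow_of_exponent_le (by norm_num) hq1
    calc (2 : ℝ) ^ q * J.card ≤ (2 : ℝ) ^ ((p - 1) * u + R) * (2 : ℝ) ^ u := by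
          gcongr
          exact hCls.card
      _ = (2 : ℝ) ^ (p * u + R) := by
          rw [← Real.rpow_natCast 2 u, ← Real.rpow_add (by norm_num)]
          congr 1
          ring
  have hX1 : (2 : ℝ) ^ (-(p * u)) * (2 ^ q * J.card) ≤ (2 : ℝ) ^ (R : ℝ) := by
    calc (2 : ℝ) ^ (-(p * u)) * (2 ^ q * J.card) ≤
          (2 : ℝ) ^ (-(p * u)) * (2 : ℝ) ^ (p * u + R) := by gcongr
      _ = (2 : ℝ) ^ (R : ℝ) := by
          rw [← Real.rpow_add (by norm_num)]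
          congr 1
          ring
  have hzp : (2 : ℝ) ^ (R : ℝ) / (2 : ℝ) ^ β = (2 : ℝ) ^ (R - β) := by
    rw [Real.rpow_intCast, zpow_sub₀ (by norm_num)]
  have hlam2 : lam ≤ 1260 * (2 : ℝ) ^ (R - β) := by
    calc lam ≤ (2 : ℝ) ^ (-(p * u)) * (2 ^ q * J.card * (35 / mθ)) := hlam1
      _ = ((2 : ℝ) ^ (-(p * u)) * (2 ^ q * J.card)) * (35 / mθ) := by ring
      _ ≤ (2 : ℝ) ^ (R : ℝ) * (35 / mθ) := by gcongr
      _ = 1260 * ((2 : ℝ) ^ (R : ℝ) / (2 : ℝ) ^ β) := by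
          rw [hmθe]
          field_simp
          norm_num
      _ = 1260 * (2 : ℝ) ^ (R - β) := by rw [hzp]
  have hRβ : (2 : ℝ) ^ (R - β) = (2 : ℝ) ^ ((R : ℝ) - β) := by
    rw [← Real.rpow_intCast]
    push_cast
    rfl
  have hΛC : ∀ x : ℝ, 0 ≤ x → 1 ≤ Λ₁ ^ x := fun x hx => Real.one_le_rpow hΛ hx
  have hcT : c₂ * T ≤ T := mul_le_of_le_one_left hT0 hc₂1
  have hCn : C ≤ C * nn c δ R Y β := le_mul_of_one_le_right (by linarith) hnn1
  -- case 1
  by_cases hc1 : lam < (2 : ℝ) ^ (-T)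
  · have h1 : (2 : ℝ) ^ (-T) ≤ (2 : ℝ) ^ (-(c₂ * T)) := by
      apply Real.rpow_le_rpow_of_exponent_le (by norm_num)
      exact neg_le_neg hcT
    have h2 : (1 : ℝ) ≤ C * nn c δ R Y β := hC1.trans hCn
    have h3 : (0 : ℝ) < (2 : ℝ) ^ (-(c₂ * T)) := by positivity
    calc lam ≤ 1 * (2 : ℝ) ^ (-(c₂ * T)) * 1 := by linarith
      _ ≤ C * nn c δ R Y β * (2 : ℝ) ^ (-(c₂ * T)) * Λ₁ ^ C := by
          gcongr
          exact hΛC C (by linarith)
  rw [not_lt] at hc1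
  -- case 2
  by_cases hc2 : (2 : ℝ) ^ T < Λ₁
  · have h1 : (2 : ℝ) ^ ((R : ℝ) - β) ≤ (2 : ℝ) ^ T := by
      apply Real.rpow_le_rpow_of_exponent_le (by norm_num)
      linarith
    have h2 : (2 : ℝ) ^ T ≤ (2 : ℝ) ^ (-(c₂ * T)) * Λ₁ ^ C := by
      calc (2 : ℝ) ^ T ≤ (2 : ℝ) ^ (-(c₂ * T)) * (2 : ℝ) ^ (T * C) := by
            rw [← Real.rpow_add (by norm_num)]
            apply Real.rpow_le_rpow_of_exponent_le (by norm_num)
            have h5 : T * 2 ≤ T * C := mul_le_mul_of_nonneg_left (by linarith) hT0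
            linarith
        _ = (2 : ℝ) ^ (-(c₂ * T)) * ((2 : ℝ) ^ T) ^ C := by rw [Real.rpow_mul (by norm_num)]
        _ ≤ (2 : ℝ) ^ (-(c₂ * T)) * Λ₁ ^ C := by
            gcongr
    have h4 : (1260 : ℝ) ≤ C * nn c δ R Y β := hCb.trans hCn
    calc lam ≤ 1260 * (2 : ℝ) ^ ((R : ℝ) - β) := by rw [← hRβ]; exact hlam2
      _ ≤ 1260 * (2 : ℝ) ^ T := by gcongr
      _ ≤ (C * nn c δ R Y β) * ((2 : ℝ) ^ (-(c₂ * T)) * Λ₁ ^ C) := by gcongr
      _ = C * nn c δ R Y β * (2 : ℝ) ^ (-(c₂ * T)) * Λ₁ ^ C := by ring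
  rw [not_lt] at hc2
  -- main case
  set X : ℝ := C₀ * ((2 : ℝ) ^ (-(p * u)) * (2 ^ q * J.card)) / (lam * mθ) with hXdef
  have hX0 : 0 < X := by positivity
  have hXle : X ≤ 36 * C₀ * (2 : ℝ) ^ (R - β) / lam := by
    rw [hXdef, hmθe]
    have : 36 * C₀ * (2 : ℝ) ^ (R - β) / lam = C₀ * (2 : ℝ) ^ (R : ℝ) / (lam * ((2 : ℝ) ^ β / 36)) := by
      rw [← hzp]
      field_simp
    rw [this]
    gcongr
  set r : ℕ := ⌈Real.logb 2 X⌉₊ with hrdef
  have hXr : X ≤ (2 : ℝ) ^ r := by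
    have h1 : Real.logb 2 X ≤ r := Nat.le_ceil _
    rw [Real.logb_le_iff_le_rpow (by norm_num) hX0, Real.rpow_natCast] at h1
    exact h1
  have hrB : (r : ℝ) ≤ (R : ℝ) - β - Real.logb 2 lam + B := by
    set y : ℝ := Real.logb 2 (1260 * C₀ * (2 : ℝ) ^ (R - β) / lam) with hydef
    have hy1 : y = Real.logb 2 (1260 * C₀) + ((R : ℝ) - β) - Real.logb 2 lam := by
      rw [hydef, Real.logb_div (by positivity) hlam.ne', Real.logb_mul (by positivity) (by positivity),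
        hRβ, Real.logb_rpow (by norm_num) (by norm_num)]
    have hy0 : 0 ≤ y := by
      apply Real.logb_nonneg (by norm_num)
      rw [le_div_iff₀ hlam, one_mul]
      calc lam ≤ 1260 * (2 : ℝ) ^ (R - β) := hlam2
        _ = 1260 * 1 * (2 : ℝ) ^ (R - β) := by ring
        _ ≤ 1260 * C₀ * (2 : ℝ) ^ (R - β) := by gcongr
    have hXy : Real.logb 2 X ≤ y := by
      apply Real.logb_le_logb_of_le (by norm_num) hX0
      refine hXle.trans ?_
      gcongr
      norm_num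
    have h1 : (r : ℝ) < y + 1 := by
      have : (r : ℝ) ≤ ⌈y⌉₊ := by exact_mod_cast Nat.ceil_mono hXy
      exact lt_of_le_of_lt this (Nat.ceil_lt_add_one hy0)
    rw [hBdef]
    linarith
  have hloglam : -T ≤ Real.logb 2 lam := by
    rw [Real.le_logb_iff_rpow_le (by norm_num) hlam]
    exact hc1
  have hr2 : (r : ℝ) ≤ 2 * T + B := by linarith
  have hrq : r + 11 ≤ q := by
    have : ((r + 11 : ℕ) : ℝ) ≤ q := by
      push_cast
      linarith
    exact_mod_cast this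
  have hu45 : u ≤ 45 * 2 ^ (q - r - 6) := by
    have h1 : (u : ℝ) ≤ (2 : ℝ) ^ (q - r - 6) := by
      refine hu1.trans ?_
      rw [← Real.rpow_natCast]
      apply Real.rpow_le_rpow_of_exponent_le (by norm_num)
      have h2 : ((q - r - 6 : ℕ) : ℝ) = (q : ℝ) - r - 6 := by
        rw [Nat.sub_sub, Nat.cast_sub (by omega)]
        push_cast
        ring
      rw [h2]
      linarith
    have h2 : u ≤ 2 ^ (q - r - 6) := by exact_mod_cast h1
    omega
  have hcond1 : C₀ * (2 : ℝ) ^ (-(p * u)) * (2 ^ (q - r) * J.card) ≤ lam * mθ := by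
    have h1 : (2 : ℝ) ^ (q - r) = 2 ^ q / 2 ^ r := by
      rw [eq_div_iff (by positivity), ← pow_add]
      congr 1
      omega
    rw [h1]
    have h2 : C₀ * (2 : ℝ) ^ (-(p * u)) * (2 ^ q / 2 ^ r * J.card) = X * (lam * mθ) / 2 ^ r := by
      rw [hXdef]
      field_simp
    rw [h2, div_le_iff₀ (by positivity)]
    have : X * (lam * mθ) ≤ 2 ^ r * (lam * mθ) := by gcongr
    linarith
  have hcond2 : C₀ * (2 : ℝ) ^ (-(p * u)) * (2 : ℝ) ^ (ε * r) * Λ₁ ≤ lam * th i := by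
    have h1 : C₀ * (2 : ℝ) ^ (-(p * u)) * (2 : ℝ) ^ (ε * r) * Λ₁ ≤
        (2 : ℝ) ^ (Real.logb 2 C₀ + -(p * u) + (2 * T + B) + T) := by
      rw [Real.rpow_add (by norm_num), Real.rpow_add (by norm_num), Real.rpow_add (by norm_num),
        Real.rpow_logb (by norm_num) (by norm_num) (by linarith)]
      have hεr : ε * r ≤ 2 * T + B := by
        have : ε * (r : ℝ) ≤ 1 * r := by gcongr
        linarith
      gcongr
      norm_num
    have h2 : (2 : ℝ) ^ (-T + (-(u / p + T)) - Real.logb 2 36) ≤ lam * th i := by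
      rw [Real.rpow_sub (by norm_num), Real.rpow_add (by norm_num),
        Real.rpow_logb (by norm_num) (by norm_num) (by norm_num), mul_div_assoc]
      have h3 : (2 : ℝ) ^ (-(u / p + T)) / 36 ≤ th i := by
        unfold th
        rw [← Real.rpow_intCast]
        gcongr
        · norm_num
        · push_cast
          linarith
      gcongr
    refine h1.trans (le_trans ?_ h2)
    apply Real.rpow_le_rpow_of_exponent_le (by norm_num)
    have h4 : (p - 1) * u ≤ p * u - u / p := by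
      have : p * u - u / p - (p - 1) * u = (1 - 1 / p) * u := by
        field_simp
        ring
      have h5 : 0 ≤ (1 - 1 / p) * (u : ℝ) := by
        apply mul_nonneg _ hu00
        rw [sub_nonneg, div_le_one (by linarith)]
        exact hp1.le
      linarith
    linarith
  obtain ⟨ρ, hρr, hρ⟩ := hT E H u q r J sl fl D (th i) (mb i β) al lam Λ₁ ω hCls hChg hD hE hH hHE hH0
    hlam hΛ (th_pos_TON i) (th_le_TON i) (mb_pos_TON i β) hal0 hcg hint hrq hu45 hcond1 hcond2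
  have hCfg' : Cfg p e₁ R Y β u q i :=
    ⟨hCfg.hq, hCfg.hi, hCfg.adm.trans (mul_le_mul_of_nonneg_right hee₁ hu00)⟩
  have hfin := hN2 R Y β u q i ρ al lam Λ₁ hCfg' hal0 (hal1.trans (by gcongr)) (hRY.trans (by linarith))
    hlam (hlam2.trans (by gcongr)) hc1 hΛ (by
      have : (ρ : ℝ) ≤ r := by exact_mod_cast hρr
      linarith) (hρ.trans (by gcongr))
  refine hfin.trans ?_
  gcongr

end Pool.Agent.Helper2.ES
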